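import Pool.Agent.V5helper87.WM.Star

/-!
# The inner product of a polarized Lefschetz module
-/

set_option autoImplicit false

namespace Pool.Agent.V5helper87.WM

open Module ComplexConjugate

variable {H : Type*} [AddCommGroup H] [Module ℂ H]

/-- A polarized Lefschetz module: `B` is a form for which `L` is self-adjoint, `c` is a conjugate
linear operator with `c L = - L c`, and `B (x, L ^ m c x)` is positive for primitive `x ≠ 0`. -/
structure PLM (G : ℤ → Submodule ℂ H) (L : Module.End ℂ H) (B : H →ₗ[ℂ] H →ₗ[ℂ] ℂ)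
    (c : H →ₛₗ[starRingEnd ℂ] H) : Prop extends LM G L where
  orth : ∀ i j x y, x ∈ G i → y ∈ G j → i + j ≠ 0 → B x y = 0
  adj : ∀ x y, B (L x) y = B x (L y)
  c_deg : ∀ j x, x ∈ G j → c x ∈ G j
  c_lef : ∀ x, c (L x) = -L (c x)
  pos : ∀ (m : ℕ) x, x ∈ Pri G L m → x ≠ 0 → ∃ r : ℝ, 0 < r ∧ B x ((L ^ m) (c x)) = r

/-- The hermitian form. -/
noncomputable def hf (B : H →ₗ[ℂ] H →ₗ[ℂ] ℂ) (S : Module.End ℂ H) (c : H →ₛₗ[starRingEnd ℂ] H)
    (x y : H) : ℂ := B x (S (c y))

section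

variable (B : H →ₗ[ℂ] H →ₗ[ℂ] ℂ) (S : Module.End ℂ H) (c : H →ₛₗ[starRingEnd ℂ] H)

lemma hf_add_left (x y z : H) : hf B S c (x + y) z = hf B S c x z + hf B S c y z := by
  unfold hf; rw [map_add, LinearMap.add_apply]

lemma hf_add_right (x y z : H) : hf B S c x (y + z) = hf B S c x y + hf B S c x z := by
  unfold hf; rw [map_add, map_add, map_add]

lemma hf_smul_left (a : ℂ) (x y : H) : hf B S c (a • x) y = a * hf B S c x y := by
  unfold hf; rw [map_smul, LinearMap.smul_apply, smul_eq_mul]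

lemma hf_smul_right (a : ℂ) (x y : H) : hf B S c x (a • y) = conj a * hf B S c x y := by
  unfold hf; rw [LinearMap.map_smulₛₗ, map_smul, map_smul, smul_eq_mul]

lemma hf_zero_left (y : H) : hf B S c 0 y = 0 := by unfold hf; simp

lemma hf_zero_right (x : H) : hf B S c x 0 = 0 := by unfold hf; simp

end

namespace PLM

variable {G : ℤ → Submodule ℂ H} {L S : Module.End ℂ H} {B : H →ₗ[ℂ] H →ₗ[ℂ] ℂ}
  {c : H →ₛₗ[starRingEnd ℂ] H}

lemma c_pow (h : PLM G L B c) (i : ℕ) (x : H) : c ((L ^ i) x) = ((-1 : ℂ) ^ i) • (L ^ i) (c x) := by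
  induction i generalizing x with
  | zero => simp
  | succ i ih =>
    rw [← pow_one_apply, ih, h.c_lef, map_neg, pow_one_apply, pow_succ]
    module

lemma c_pri (h : PLM G L B c) {m : ℕ} {p : H} (hp : p ∈ Pri G L m) : c p ∈ Pri G L m := by
  refine ⟨h.c_deg _ _ hp.1, ?_⟩
  have h1 := h.c_pow (m + 1) p
  rw [hp.2, map_zero] at h1
  show (L ^ (m + 1)) (c p) = 0
  have h2 : ((-1 : ℂ) ^ (m + 1)) ≠ 0 := pow_ne_zero _ (by norm_num)
  exact (smul_eq_zero.1 h1.symm).resolve_left h2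

lemma adj_pow (h : PLM G L B c) (i : ℕ) (x y : H) : B ((L ^ i) x) y = B x ((L ^ i) y) := by
  induction i generalizing x y with
  | zero => rfl
  | succ i ih => rw [← one_pow_apply, h.adj, ih, pow_one_apply]

/-- The operator `Λ` anticommutes with `c`. -/
lemma c_dual (h : PLM G L B c) {D : Module.End ℂ H} (hD : IsDualLef G L D) (x : H) :
    c (D x) = -D (c x) := by
  refine h.toLM.induct (Q := fun x => c (D x) = -D (c x)) ?_ (by simp) ?_ x
  · intro x y hx hy
    rw [map_add, map_add, map_add, map_add, hx, hy]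
    abel
  intro m i p hi hp
  rw [hD m i p hi hp, LinearMap.map_smulₛₗ, h.c_pow, h.c_pow, map_smul,
    hD m i _ hi (h.c_pri hp)]
  rcases Nat.eq_zero_or_pos i with rfl | hi0
  · simp
  · obtain ⟨j, rfl⟩ : ∃ j, i = j + 1 := ⟨i - 1, by omega⟩
    rw [Nat.add_sub_cancel, pow_succ]
    simp only [map_mul, map_sub, map_add, map_natCast, map_one]
    module

/-- The values of the hermitian form. -/
lemma hf_mono (h : PLM G L B c) (hS : IsStar G L S) {m i m' j : ℕ} {p q : H} (_hi : i ≤ m)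
    (hj : j ≤ m') (_hp : p ∈ Pri G L m) (hq : q ∈ Pri G L m') :
    hf B S c ((L ^ i) p) ((L ^ j) q) =
      ((j.factorial : ℂ) / ((m' - j).factorial : ℂ)) * B p ((L ^ (i + (m' - j))) (c q)) := by
  unfold hf
  rw [h.c_pow, map_smul, hS m' j _ hj (h.c_pri hq), map_smul, map_smul, h.adj_pow, pow_comm_apply]
  unfold sg
  rw [smul_eq_mul, smul_eq_mul, ← mul_assoc, ← mul_assoc, ← mul_pow]
  norm_num

lemma hf_ne (h : PLM G L B c) (hS : IsStar G L S) {m i m' j : ℕ} {p q : H} (hi : i ≤ m)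
    (hj : j ≤ m') (hp : p ∈ Pri G L m) (hq : q ∈ Pri G L m') (hne : ¬ (m = m' ∧ i = j)) :
    hf B S c ((L ^ i) p) ((L ^ j) q) = 0 := by
  rw [h.hf_mono hS hi hj hp hq]
  have hq' := h.c_pri hq
  by_cases h1 : m' < i + (m' - j)
  · rw [h.toLM.pri_high hq' h1, map_zero, mul_zero]
  by_cases h2 : m < i + (m' - j)
  · rw [← h.adj_pow, h.toLM.pri_high hp h2, map_zero, LinearMap.zero_apply, mul_zero]
  have h3 : (L ^ (i + (m' - j))) (c q) ∈ G (-m' + 2 * (i + (m' - j) : ℕ)) :=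
    h.toLM.pow_deg _ hq'.1
  rw [h.orth _ _ _ _ hp.1 h3 (by omega), mul_zero]

lemma hf_self (h : PLM G L B c) (hS : IsStar G L S) {m i : ℕ} {p : H} (hi : i ≤ m)
    (hp : p ∈ Pri G L m) : ∃ r : ℝ, 0 ≤ r ∧ hf B S c ((L ^ i) p) ((L ^ i) p) = r ∧
      (r = 0 → p = 0) := by
  rw [h.hf_mono hS hi hi hp hp, show i + (m - i) = m by omega]
  by_cases hp0 : p = 0
  · subst hp0
    exact ⟨0, le_rfl, by simp, fun _ => rfl⟩
  obtain ⟨r, hr, hr'⟩ := h.pos m p hp hp0
  have h1 : (0 : ℝ) < (i.factorial : ℝ) / ((m - i).factorial : ℝ) := by positivity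
  refine ⟨(i.factorial : ℝ) / ((m - i).factorial : ℝ) * r, by positivity, ?_, fun h0 => ?_⟩
  · rw [hr']
    push_cast
    rfl
  · exact absurd h0 (by positivity)

/-- Positivity on the elements `L ^ s x`. -/
lemma hf_pos_low (h : PLM G L B c) (hS : IsStar G L S) :
    ∀ (m s : ℕ) (x : H), s ≤ m → x ∈ G (-m) →
      ∃ r : ℝ, 0 ≤ r ∧ hf B S c ((L ^ s) x) ((L ^ s) x) = r ∧ (r = 0 → x = 0) := by
  obtain ⟨M, hM⟩ := h.bdd
  have key : ∀ (k m s : ℕ) (x : H), M < m + 2 * k → s ≤ m → x ∈ G (-m) →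
      ∃ r : ℝ, 0 ≤ r ∧ hf B S c ((L ^ s) x) ((L ^ s) x) = r ∧ (r = 0 → x = 0) := by
    intro k
    induction k with
    | zero =>
      intro m s x hk _ hx
      rw [hM m (by omega), Submodule.mem_bot] at hx
      subst hx
      exact ⟨0, le_rfl, by rw [map_zero, hf_zero_left]; simp, fun _ => rfl⟩
    | succ k ih =>
      intro m s x hk hs hx
      obtain ⟨p, hpp, w, hw, rfl⟩ := h.toLM.decomp m hx
      obtain ⟨r1, hr1, e1, z1⟩ := h.hf_self hS hs hpp
      obtain ⟨r2, hr2, e2, z2⟩ := ih (m + 2) (s + 1) w (by omega) (by omega) hw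
      have c1 : hf B S c ((L ^ s) p) ((L ^ (s + 1)) w) = 0 := by
        refine h.toLM.induct_from (m + 2) (Q := fun y => hf B S c ((L ^ s) p) y = 0) ?_
          (hf_zero_right _ _ _ _) ?_ (m + 2) (s + 1) w le_rfl (by omega) hw
        · intro y z hy hz
          rw [hf_add_right, hy, hz, add_zero]
        · intro m' i q hm' hi hq
          exact h.hf_ne hS hs hi hpp hq (by omega)
      have c2 : hf B S c ((L ^ (s + 1)) w) ((L ^ s) p) = 0 := by
        refine h.toLM.induct_from (m + 2) (Q := fun y => hf B S c y ((L ^ s) p) = 0) ?_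
          (hf_zero_left _ _ _ _) ?_ (m + 2) (s + 1) w le_rfl (by omega) hw
        · intro y z hy hz
          rw [hf_add_left, hy, hz, add_zero]
        · intro m' i q hm' hi hq
          exact h.hf_ne hS hi hs hq hpp (by omega)
      refine ⟨r1 + r2, by positivity, ?_, fun h0 => ?_⟩
      · rw [map_add, pow_one_apply, hf_add_left, hf_add_right, hf_add_right, e1, e2, c1, c2]
        push_cast
        ring
      · rw [z1 (by linarith), z2 (by linarith), map_zero, add_zero]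
  intro m s x hs hx
  exact key (M + 1) m s x (by omega) hs hx

/-- Positivity. -/
theorem hf_pos (h : PLM G L B c) (hS : IsStar G L S) {j : ℤ} {x : H} (hx : x ∈ G j) :
    ∃ r : ℝ, 0 ≤ r ∧ hf B S c x x = r ∧ (r = 0 → x = 0) := by
  rcases le_total j 0 with hj | hj
  · obtain ⟨m, hm⟩ := Int.eq_ofNat_of_zero_le (show 0 ≤ -j by omega)
    have := h.hf_pos_low hS m 0 x (Nat.zero_le _) (cast_mem (by omega) hx)
    simpa using this
  · obtain ⟨m, rfl⟩ := Int.eq_ofNat_of_zero_le hj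
    obtain ⟨y, hy, rfl⟩ := h.surj m x hx
    obtain ⟨r, hr, e, z⟩ := h.hf_pos_low hS m m y le_rfl hy
    exact ⟨r, hr, e, fun h0 => by rw [z h0, map_zero]⟩

/-- The form is hermitian. -/
theorem hf_symm (h : PLM G L B c) (hS : IsStar G L S) {j : ℤ} {x y : H} (hx : x ∈ G j)
    (hy : y ∈ G j) : hf B S c y x = conj (hf B S c x y) := by
  obtain ⟨r1, -, e1, -⟩ := h.hf_pos hS hx
  obtain ⟨r2, -, e2, -⟩ := h.hf_pos hS hy
  obtain ⟨r3, -, e3, -⟩ := h.hf_pos hS (Submodule.add_mem _ hx hy)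
  obtain ⟨r4, -, e4, -⟩ := h.hf_pos hS (Submodule.add_mem _ hx (Submodule.smul_mem _ Complex.I hy))
  rw [hf_add_left, hf_add_right, hf_add_right, e1, e2] at e3
  rw [hf_add_left, hf_add_right, hf_add_right, hf_smul_left, hf_smul_left, hf_smul_right,
    hf_smul_right, e1, e2, Complex.conj_I] at e4
  have i3 := congrArg Complex.im e3
  have i4 := congrArg Complex.im e4
  simp only [Complex.add_im, Complex.ofReal_im, Complex.mul_im, Complex.neg_im, Complex.neg_re,
    Complex.I_re, Complex.I_im, Complex.mul_re, Complex.ofReal_re] at i3 i4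
  apply Complex.ext
  · rw [Complex.conj_re]
    linarith
  · rw [Complex.conj_im]
    linarith

end PLM

end Pool.Agent.V5helper87.WM
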