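import Pool.Agent.V5helper87.WM.Ops

/-!
# The Laplacian on the strata
-/

set_option autoImplicit false

namespace Pool.Agent.V5helper87.WM

open Module ComplexConjugate Pool.Agent.Y143

universe v

variable {Γ : Type} {n q : ℕ}

namespace HRS

variable {X : SpecialFibre.{0, v} ℂ Γ n q} (Z : HRS X)

/-- The operator `res rs`. -/
noncomputable def rr : ∀ a, Module.End ℂ (X.H a)
  | 0 => 0
  | a + 1 => (X.res a) ∘ₗ (Z.rs a)

/-- The Laplacian on the cohomology of `Y^(a+1)`. -/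
noncomputable def lap (a : ℕ) : Module.End ℂ (X.H a) :=
  (a : ℂ) • (Z.rr a + (Z.rs a) ∘ₗ (X.res a)) + (Z.rs a) ∘ₗ (X.res a) + (X.gys a) ∘ₗ (Z.ts a)

lemma lap_apply (a : ℕ) (x : X.H a) : Z.lap a x =
    (a : ℂ) • (Z.rr a x + Z.rs a (X.res a x)) + Z.rs a (X.res a x) + X.gys a (Z.ts a x) := rfl

lemma rr_succ (a : ℕ) (x : X.H (a + 1)) : Z.rr (a + 1) x = X.res a (Z.rs a x) := rfl

lemma rr_gr (a : ℕ) (k : ℤ) (x : X.H a) (hx : x ∈ X.gr a k) : Z.rr a x ∈ X.gr a k := by
  cases a with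
  | zero => exact Submodule.zero_mem _
  | succ a => exact X.res_gr a k _ (Z.rs_gr a k x hx)

lemma rsres_gr (a : ℕ) (k : ℤ) (x : X.H a) (hx : x ∈ X.gr a k) :
    Z.rs a (X.res a x) ∈ X.gr a k := Z.rs_gr a k _ (X.res_gr a k x hx)

lemma gysts_gr (a : ℕ) (k : ℤ) (x : X.H a) (hx : x ∈ X.gr a k) :
    X.gys a (Z.ts a x) ∈ X.gr a k := by
  have := X.gys_gr a _ _ (Z.ts_gr a k x hx)
  rwa [show k - 2 + 2 = k by ring] at this

lemma lap_gr (a : ℕ) (k : ℤ) (x : X.H a) (hx : x ∈ X.gr a k) : Z.lap a x ∈ X.gr a k := by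
  rw [lap_apply]
  exact Submodule.add_mem _ (Submodule.add_mem _ (Submodule.smul_mem _ _
    (Submodule.add_mem _ (Z.rr_gr a k x hx) (Z.rsres_gr a k x hx))) (Z.rsres_gr a k x hx))
    (Z.gysts_gr a k x hx)

/-- The hermitian form of `rr`. -/
lemma ip_rr (a : ℕ) (k : ℤ) (y : X.H a) (hy : y ∈ X.gr a k) :
    ∃ r : ℝ, 0 ≤ r ∧ Z.ip a (Z.rr a y) y = r := by
  cases a with
  | zero => exact ⟨0, le_rfl, by rw [show Z.rr 0 y = 0 from rfl, ip_zero_left]; simp⟩
  | succ a =>
    rw [rr_succ, ip_res]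
    obtain ⟨r, h1, h2, -⟩ := Z.ip_pos a k _ (Z.rs_gr a k y hy)
    exact ⟨r, h1, h2⟩

/-- Harmonic elements are killed by `res` and `ts`. -/
lemma harm (a : ℕ) (k : ℤ) (y : X.H a) (hy : y ∈ X.gr a k) (h : Z.lap a y = 0) :
    X.res a y = 0 ∧ Z.ts a y = 0 := by
  obtain ⟨r1, p1, e1⟩ := Z.ip_rr a k y hy
  have e2 := Z.ip_rs a k _ y (X.res_gr a k y hy) hy
  obtain ⟨r2, p2, e2', z2⟩ := Z.ip_pos (a + 1) k _ (X.res_gr a k y hy)
  have e3 := Z.ip_gys a (Z.ts a y) y
  obtain ⟨r3, p3, e3', z3⟩ := Z.ip_pos (a + 1) (k - 2) _ (Z.ts_gr a k y hy)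
  have h0 : Z.ip a (Z.lap a y) y = 0 := by rw [h, ip_zero_left]
  rw [lap_apply, ip_add_left, ip_add_left, ip_smul_left, ip_add_left, e1, e2, e2', e3, e3'] at h0
  have h0' : (a : ℝ) * (r1 + r2) + r2 + r3 = 0 := by exact_mod_cast h0
  have p4 : 0 ≤ (a : ℝ) * (r1 + r2) := by positivity
  exact ⟨z2 (by linarith), z3 (by linarith)⟩

/-- Harmonic elements are killed by `rs`. -/
lemma harm_rs (a : ℕ) (k : ℤ) (y : X.H (a + 1)) (hy : y ∈ X.gr (a + 1) k)
    (h : Z.lap (a + 1) y = 0) : Z.rs a y = 0 := by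
  obtain ⟨h1, h2⟩ := Z.harm (a + 1) k y hy h
  have h0 : Z.ip (a + 1) (Z.lap (a + 1) y) y = 0 := by rw [h, ip_zero_left]
  rw [lap_apply, h1, h2, map_zero, map_zero, add_zero, add_zero, add_zero, ip_smul_left, rr_succ,
    ip_res] at h0
  have h3 : ((a + 1 : ℕ) : ℂ) ≠ 0 := by exact_mod_cast Nat.succ_ne_zero a
  exact Z.ip_self_eq_zero a k _ (Z.rs_gr a k y hy) ((mul_eq_zero.1 h0).resolve_left h3)

/-- Harmonic elements are killed by the Gysin map. -/
lemma harm_gys (a : ℕ) (k : ℤ) (y : X.H (a + 1)) (hy : y ∈ X.gr (a + 1) k)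
    (h : Z.lap (a + 1) y = 0) : X.gys a y = 0 := by
  obtain ⟨h1, h2⟩ := Z.harm (a + 1) k y hy h
  have h3 := Z.harm_rs a k y hy h
  have h4 := Z.anti a y
  rw [h1, h2, h3, map_zero, map_zero, map_zero, add_zero, zero_add] at h4
  have h5 := Z.ip_ts a (k + 2) (X.gys a y) y (X.gys_gr a k y hy)
    (by rwa [show k + 2 - 2 = k by ring])
  rw [← h4, ip_zero_left] at h5
  exact Z.ip_self_eq_zero a (k + 2) _ (X.gys_gr a k y hy) h5.symm

/-- The kernel and the image of the Laplacian meet in zero. -/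
lemma ker_range (a : ℕ) (k : ℤ) (x : X.H a) (hx : x ∈ X.gr a k) (h : Z.lap a (Z.lap a x) = 0) :
    Z.lap a x = 0 := by
  have hy := Z.lap_gr a k x hx
  obtain ⟨h1, h2⟩ := Z.harm a k _ hy h
  apply Z.ip_self_eq_zero a k _ hy
  have e1 : Z.ip a (Z.rr a x) (Z.lap a x) = 0 := by
    cases a with
    | zero => exact Z.ip_zero_left 0 _
    | succ a => rw [rr_succ, ip_res, Z.harm_rs a k _ hy h, ip_zero_right]
  have e2 : Z.ip a (Z.rs a (X.res a x)) (Z.lap a x) = 0 := by
    rw [Z.ip_rs a k _ _ (X.res_gr a k x hx) hy, h1, ip_zero_right]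
  have e3 : Z.ip a (X.gys a (Z.ts a x)) (Z.lap a x) = 0 := by
    rw [ip_gys, h2, ip_zero_right]
  conv_lhs => rw [lap_apply]
  rw [ip_add_left, ip_add_left, ip_smul_left, ip_add_left]
  rw [← lap_apply, e1, e2, e3]
  ring

/-- The Hodge decomposition on the strata. -/
lemma split (a : ℕ) (k : ℤ) (x : X.H a) (hx : x ∈ X.gr a k) :
    ∃ h ∈ X.gr a k, ∃ u ∈ X.gr a k, Z.lap a h = 0 ∧ x = h + Z.lap a u := by
  let T : (X.gr a k) →ₗ[ℂ] (X.gr a k) := (Z.lap a).restrict (fun x hx => Z.lap_gr a k x hx)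
  let T' : (LinearMap.range T) →ₗ[ℂ] (LinearMap.range T) := T.restrict
    (fun x _ => LinearMap.mem_range_self T x)
  have hinj : Function.Injective T' := by
    rw [← LinearMap.ker_eq_bot, LinearMap.ker_eq_bot']
    rintro ⟨y, ⟨z, hz⟩⟩ h0
    have h1 : T y = 0 := congrArg Subtype.val h0
    have h2 : Z.lap a (Z.lap a z) = 0 := by
      have : (T y : X.H a) = 0 := by rw [h1]; rfl
      rw [← hz] at this
      exact this
    have h3 := Z.ker_range a k z z.2 h2
    apply Subtype.ext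
    show y = 0
    rw [← hz]
    exact Subtype.ext h3
  have hsurj : Function.Surjective T' := LinearMap.injective_iff_surjective.1 hinj
  obtain ⟨⟨y, ⟨u, hu⟩⟩, hy⟩ := hsurj ⟨T ⟨x, hx⟩, LinearMap.mem_range_self T _⟩
  have h1 : T y = T ⟨x, hx⟩ := congrArg Subtype.val hy
  have h2 : Z.lap a (Z.lap a u) = Z.lap a x := by
    have : (T y : X.H a) = (T ⟨x, hx⟩ : X.gr a k) := by rw [h1]
    rw [← hu] at this
    exact this
  refine ⟨x - Z.lap a u, Submodule.sub_mem _ hx (Z.lap_gr a k u u.2), u, u.2, ?_, by abel⟩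
  rw [map_sub, h2, sub_self]

lemma split2 (a : ℕ) (k : ℤ) (x : X.H a) (hx : x ∈ X.gr a k) :
    ∃ h ∈ X.gr a k, ∃ u ∈ X.gr a k, Z.lap a h = 0 ∧ x = h + Z.lap a (Z.lap a u) := by
  obtain ⟨h, hh, u, hu, h0, rfl⟩ := Z.split a k x hx
  obtain ⟨h', hh', u', hu', h0', rfl⟩ := Z.split a k u hu
  exact ⟨h, hh, u', hu', h0, by rw [map_add, h0', zero_add]⟩

/-! ### Families -/

/-- The adjoint of `res` on families. -/
noncomputable def rsC (x : X.C) : X.C := fun a => Z.rs a (x (a + 1))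

/-- The adjoint of `gys` on families. -/
noncomputable def tsC (x : X.C) : X.C := fun a => match a with
  | 0 => 0
  | b + 1 => Z.ts b (x b)

/-- The Laplacian on families. -/
noncomputable def lapC : X.C →ₗ[ℂ] X.C where
  toFun x a := Z.lap a (x a)
  map_add' x y := by ext a; simp
  map_smul' t x := by ext a; simp

lemma lapC_apply (x : X.C) (a : ℕ) : Z.lapC x a = Z.lap a (x a) := rfl

open Classical in
/-- The adjoint of the differential on the column `r`. -/
noncomputable def dst (r : ℤ) (x : X.C) : X.C := fun a =>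
  if InColumn (r - 1) a then
    (((a : ℂ) + r + 1) / 2) • Z.rsC x a + (((a : ℂ) - r + 1) / 2) • Z.tsC x a else 0

lemma dst_of {r : ℤ} {a : ℕ} (h : InColumn (r - 1) a) (x : X.C) : Z.dst r x a =
    (((a : ℂ) + r + 1) / 2) • Z.rsC x a + (((a : ℂ) - r + 1) / 2) • Z.tsC x a := if_pos h

lemma dst_of_not {r : ℤ} {a : ℕ} (h : ¬ InColumn (r - 1) a) (x : X.C) : Z.dst r x a = 0 :=
  if_neg h

lemma dst_zero (r : ℤ) : Z.dst r (0 : X.C) = 0 := by
  ext a
  by_cases h : InColumn (r - 1) a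
  · rw [Z.dst_of h]
    have h1 : Z.rsC (0 : X.C) a = 0 := by
      show Z.rs a ((0 : X.C) (a + 1)) = 0
      rw [Pi.zero_apply, map_zero]
    have h2 : Z.tsC (0 : X.C) a = 0 := by
      cases a with
      | zero => rfl
      | succ b =>
        show Z.ts b ((0 : X.C) b) = 0
        rw [Pi.zero_apply, map_zero]
    rw [h1, h2, smul_zero, smul_zero, add_zero]
    rfl
  · rw [Z.dst_of_not h]; rfl

lemma dst_mem {r w : ℤ} {x : X.C} (hx : x ∈ X.E₁ r w) : Z.dst r x ∈ X.E₁ (r - 1) w := by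
  intro a
  constructor
  · by_cases h : InColumn (r - 1) a
    · rw [Z.dst_of h]
      refine Submodule.add_mem _ (Submodule.smul_mem _ _ ?_) (Submodule.smul_mem _ _ ?_)
      · have h1 := Z.rs_gr a _ _ (hx (a + 1)).1
        show Z.rs a (x (a + 1)) ∈ _
        rwa [show w + r - ((a + 1 : ℕ) : ℤ) = w + (r - 1) - a by push_cast; ring] at h1
      · cases a with
        | zero => exact Submodule.zero_mem _
        | succ b =>
          have h1 := Z.ts_gr b _ _ (hx b).1
          show Z.ts b (x b) ∈ _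
          rwa [show w + r - (b : ℤ) - 2 = w + (r - 1) - ((b + 1 : ℕ) : ℤ) by push_cast; ring] at h1
    · rw [Z.dst_of_not h]
      exact Submodule.zero_mem _
  · intro h
    exact Z.dst_of_not h _

lemma lapC_mem {r w : ℤ} {x : X.C} (hx : x ∈ X.E₁ r w) : Z.lapC x ∈ X.E₁ r w := by
  intro a
  refine ⟨Z.lap_gr a _ _ (hx a).1, fun h => ?_⟩
  rw [lapC_apply, (hx a).2 h, map_zero]

lemma diff_of {r : ℤ} {a : ℕ} (h : InColumn (r + 1) a) (x : X.C) :
    X.diff r x a = X.resC x a + X.gysC x a := by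
  rw [X.diff_apply, X.cut_of h, Pi.add_apply]

lemma diff_of_not {r : ℤ} {a : ℕ} (h : ¬ InColumn (r + 1) a) (x : X.C) : X.diff r x a = 0 := by
  rw [X.diff_apply, X.cut_of_not h]

/-- **The Laplacian.** `d d^* + d^* d` acts on each column by the Laplacians of the strata. -/
theorem laplace {r w : ℤ} {x : X.C} (hx : x ∈ X.E₁ r w) :
    X.diff (r - 1) (Z.dst r x) + Z.dst (r + 1) (X.diff r x) = Z.lapC x := by
  ext a
  rw [Pi.add_apply]
  by_cases hc : InColumn r a
  swap
  · rw [diff_of_not (by rwa [sub_add_cancel]), Z.dst_of_not (by rwa [add_sub_cancel_right]),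
      lapC_apply, (hx a).2 hc, map_zero, add_zero]
  obtain ⟨hc1, hc2⟩ := hc
  have hc' : InColumn r a := ⟨hc1, hc2⟩
  have hu1 : InColumn (r - 1) (a + 1) := by
    constructor
    · push_cast
      rw [abs_le] at hc1 ⊢
      omega
    · push_cast; omega
  have hu2 : InColumn (r + 1) (a + 1) := by
    constructor
    · push_cast
      rw [abs_le] at hc1 ⊢
      omega
    · push_cast; omega
  rw [diff_of (by rwa [sub_add_cancel]), Z.dst_of (by rwa [add_sub_cancel_right]), X.gysC_apply,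
    Z.dst_of hu1]
  have eA : Z.rsC (X.diff r x) a = Z.rs a (X.res a (x a)) + Z.rs a (X.gys (a + 1) (x (a + 2))) := by
    show Z.rs a (X.diff r x (a + 1)) = _
    rw [diff_of hu2, X.resC_succ, X.gysC_apply, map_add]
  have eB : Z.rsC x (a + 1) = Z.rs (a + 1) (x (a + 2)) := rfl
  have eC : Z.tsC x (a + 1) = Z.ts a (x a) := rfl
  have hcross := Z.gys_rs a (x (a + 2))
  cases a with
  | zero =>
    have hr : r = 0 := by
      have : |r| ≤ 0 := by simpa using hc1
      exact abs_nonpos_iff.1 this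
    subst hr
    have eD : Z.tsC (X.diff 0 x) 0 = 0 := rfl
    rw [eA, eB, eC, eD, X.resC_zero, lapC_apply, lap_apply]
    have eE : Z.rs 0 (X.gys (0 + 1) (x (0 + 2))) = -X.gys 0 (Z.rs (0 + 1) (x (0 + 2))) :=
      eq_neg_of_add_eq_zero_right hcross
    rw [eE, map_add, map_smul, map_smul]
    have s1 : ((((0 + 1 : ℕ) : ℂ) + ((0 : ℤ) : ℂ) + 1) / 2) = 1 := by push_cast; norm_num
    have s2 : ((((0 + 1 : ℕ) : ℂ) - ((0 : ℤ) : ℂ) + 1) / 2) = 1 := by push_cast; norm_num
    have s3 : ((((0 : ℕ) : ℂ) + ((0 + 1 : ℤ) : ℂ) + 1) / 2) = 1 := by push_cast; norm_num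
    rw [s1, s2, s3, one_smul, one_smul, one_smul, smul_zero, Nat.cast_zero, zero_smul]
    abel
  | succ b =>
    -- the component `b` of `dst r x`
    have hbr : X.resC (Z.dst r x) (b + 1) =
        ((((b + 1 : ℕ) : ℂ) + r) / 2) • X.res b (Z.rs b (x (b + 1))) +
        ((((b + 1 : ℕ) : ℂ) - r) / 2) • X.res b (Z.tsC x b) := by
      rw [X.resC_succ]
      by_cases hb : InColumn (r - 1) b
      · rw [Z.dst_of hb, map_add, map_smul, map_smul]
        have s1 : ((b : ℂ) + r + 1) / 2 = (((b + 1 : ℕ) : ℂ) + r) / 2 := by push_cast; ring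
        have s2 : ((b : ℂ) - r + 1) / 2 = (((b + 1 : ℕ) : ℂ) - r) / 2 := by push_cast; ring
        rw [s1, s2]
        rfl
      · rw [Z.dst_of_not hb, map_zero]
        have hr : r = -((b + 1 : ℕ) : ℤ) := by
          by_contra hne
          apply hb
          constructor
          · push_cast at hc1 hne
            rw [abs_le] at hc1 ⊢
            omega
          · push_cast at hc2
            omega
        have s1 : (((b + 1 : ℕ) : ℂ) + r) = 0 := by rw [hr]; push_cast; ring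
        have s2 : Z.tsC x b = 0 := by
          cases b with
          | zero => rfl
          | succ c =>
            show Z.ts c (x c) = 0
            have : x c = 0 := (hx c).2 (fun h => by
              have := h.1
              rw [hr, abs_neg, Nat.abs_cast] at this
              push_cast at this
              omega)
            rw [this, map_zero]
        rw [s1, s2]
        simp
    -- the component `b + 1` of `tsC (diff r x)`
    have hbt : ((((b + 1 : ℕ) : ℂ) - ((r + 1 : ℤ) : ℂ) + 1) / 2) • Z.tsC (X.diff r x) (b + 1) =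
        ((((b + 1 : ℕ) : ℂ) - r) / 2) • (Z.ts b (X.resC x b) + Z.ts b (X.gys b (x (b + 1)))) := by
      have e0 : Z.tsC (X.diff r x) (b + 1) = Z.ts b (X.diff r x b) := rfl
      have s1 : ((((b + 1 : ℕ) : ℂ) - ((r + 1 : ℤ) : ℂ) + 1) / 2) = ((((b + 1 : ℕ) : ℂ) - r) / 2) := by
        push_cast; ring
      rw [e0, s1]
      by_cases hb : InColumn (r + 1) b
      · rw [diff_of hb, X.gysC_apply, map_add]
      · have hr : r = ((b + 1 : ℕ) : ℤ) := by
          by_contra hne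
          apply hb
          constructor
          · push_cast at hc1 hne
            rw [abs_le] at hc1 ⊢
            omega
          · push_cast at hc2
            omega
        have s2 : (((b + 1 : ℕ) : ℂ) - r) = 0 := by rw [hr]; push_cast; ring
        rw [s2, zero_div, zero_smul, zero_smul]
    have hrt : X.res b (Z.tsC x b) + Z.ts b (X.resC x b) = 0 := by
      cases b with
      | zero =>
        show X.res 0 (0 : X.H 0) + Z.ts 0 (0 : X.H 0) = 0
        simp
      | succ c => exact Z.res_ts c (x c)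
    have eE : Z.rs (b + 1) (X.gys (b + 1 + 1) (x (b + 1 + 2))) =
        -X.gys (b + 1) (Z.rs (b + 1 + 1) (x (b + 1 + 2))) := eq_neg_of_add_eq_zero_right hcross
    have eF : Z.ts b (X.resC x b) = -X.res b (Z.tsC x b) := eq_neg_of_add_eq_zero_right hrt
    have eG : Z.ts b (X.gys b (x (b + 1))) = X.res b (Z.rs b (x (b + 1))) +
        Z.rs (b + 1) (X.res (b + 1) (x (b + 1))) - X.gys (b + 1) (Z.ts (b + 1) (x (b + 1))) := by
      rw [Z.anti b (x (b + 1))]
      abel
    rw [hbt, hbr, eA, eB, eC, lapC_apply, lap_apply, rr_succ, eE, eF, eG, map_add, map_smul,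
      map_smul]
    have s1 : ((((b + 1 + 1 : ℕ) : ℂ) + r + 1) / 2) = ((((b + 1 : ℕ) : ℂ) + r) / 2) + 1 := by
      push_cast; ring
    have s2 : ((((b + 1 + 1 : ℕ) : ℂ) - r + 1) / 2) = ((((b + 1 : ℕ) : ℂ) - r) / 2) + 1 := by
      push_cast; ring
    have s3 : ((((b + 1 : ℕ) : ℂ) + ((r + 1 : ℤ) : ℂ) + 1) / 2) = ((((b + 1 : ℕ) : ℂ) + r) / 2) + 1 := by
      push_cast; ring
    rw [s1, s2, s3]
    have s4 : (((b + 1 : ℕ) : ℂ)) = ((((b + 1 : ℕ) : ℂ) + r) / 2) + ((((b + 1 : ℕ) : ℂ) - r) / 2) := by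
      ring
    generalize ((((b + 1 : ℕ) : ℂ) + r) / 2) = t1 at *
    generalize ((((b + 1 : ℕ) : ℂ) - r) / 2) = t2 at *
    rw [s4]
    module

end HRS

end Pool.Agent.V5helper87.WM
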