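import Mathlib

/-!
# Lefschetz modules: primitive decomposition, the dual Lefschetz operator and the Weil operator

`H` is a graded vector space with an operator `L` of degree two which satisfies the hard Lefschetz
property (the grading is centred at zero). We construct operators with prescribed values on the
elements `L ^ i p`, `p` primitive, and prove an induction principle.
-/

set_option autoImplicit false

namespace Pool.Agent.V5helper87.WM

open Module

variable {F : Type*} [Field F] {H : Type*} [AddCommGroup H] [Module F H]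

/-- A Lefschetz module (graded, centred at zero). -/
structure LM (G : ℤ → Submodule F H) (L : Module.End F H) : Prop where
  internal : DirectSum.IsInternal G
  bdd : ∃ M : ℕ, ∀ m : ℕ, M < m → G (-m) = ⊥
  deg : ∀ j x, x ∈ G j → L x ∈ G (j + 2)
  inj : ∀ (m : ℕ) x, x ∈ G (-m) → (L ^ m) x = 0 → x = 0
  surj : ∀ (m : ℕ) y, y ∈ G m → ∃ x ∈ G (-m), (L ^ m) x = y

/-- The primitive part in degree `-m`. -/
def Pri (G : ℤ → Submodule F H) (L : Module.End F H) (m : ℕ) : Submodule F H :=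
  G (-m) ⊓ LinearMap.ker (L ^ (m + 1))

lemma mem_Pri {G : ℤ → Submodule F H} {L : Module.End F H} {m : ℕ} {x : H} :
    x ∈ Pri G L m ↔ x ∈ G (-m) ∧ (L ^ (m + 1)) x = 0 := Iff.rfl

lemma cast_mem {G : ℤ → Submodule F H} {i j : ℤ} (h : i = j) {x : H} (hx : x ∈ G i) : x ∈ G j := by
  subst h; exact hx

lemma pow_comm_apply (L : Module.End F H) (i j : ℕ) (x : H) :
    (L ^ i) ((L ^ j) x) = (L ^ (i + j)) x := by
  rw [pow_add]; rfl

lemma pow_one_apply (L : Module.End F H) (i : ℕ) (x : H) : (L ^ i) (L x) = (L ^ (i + 1)) x := by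
  rw [pow_succ]; rfl

lemma one_pow_apply (L : Module.End F H) (i : ℕ) (x : H) : L ((L ^ i) x) = (L ^ (i + 1)) x := by
  rw [pow_succ']; rfl

namespace LM

variable {G : ℤ → Submodule F H} {L : Module.End F H}

lemma pow_deg (h : LM G L) {j : ℤ} (i : ℕ) {x : H} (hx : x ∈ G j) : (L ^ i) x ∈ G (j + 2 * i) := by
  induction i with
  | zero => simpa using hx
  | succ i ih =>
    rw [← one_pow_apply]
    exact cast_mem (by push_cast; ring) (h.deg _ _ ih)

lemma pri_high (_h : LM G L) {m i : ℕ} {p : H} (hp : p ∈ Pri G L m) (hi : m < i) :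
    (L ^ i) p = 0 := by
  obtain ⟨k, rfl⟩ := Nat.exists_eq_add_of_lt hi
  rw [show m + k + 1 = k + (m + 1) by ring, ← pow_comm_apply, hp.2, map_zero]

/-- The primitive decomposition. -/
lemma decomp (h : LM G L) (m : ℕ) {x : H} (hx : x ∈ G (-m)) :
    ∃ p ∈ Pri G L m, ∃ w ∈ G (-(m + 2 : ℕ)), x = p + L w := by
  have h1 : (L ^ (m + 1)) x ∈ G ((m + 2 : ℕ) : ℤ) :=
    cast_mem (by push_cast; ring) (h.pow_deg (m + 1) hx)
  obtain ⟨w, hw, hw'⟩ := h.surj (m + 2) _ h1
  have hLw : L w ∈ G (-m) := cast_mem (by push_cast; ring) (h.deg _ _ hw)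
  refine ⟨x - L w, ⟨Submodule.sub_mem _ hx hLw, ?_⟩, w, hw, by abel⟩
  rw [SetLike.mem_coe, LinearMap.mem_ker, map_sub, pow_one_apply, hw', sub_self]

/-- Induction principle: every element is a sum of elements `L ^ i p` with `p` primitive. -/
lemma induct_from (h : LM G L) (m₀ : ℕ) {Q : H → Prop} (hadd : ∀ x y, Q x → Q y → Q (x + y))
    (h0 : Q 0) (hp : ∀ m i p, m₀ ≤ m → i ≤ m → p ∈ Pri G L m → Q ((L ^ i) p)) :
    ∀ (m s : ℕ) (x : H), m₀ ≤ m → s ≤ m → x ∈ G (-m) → Q ((L ^ s) x) := by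
  obtain ⟨M, hM⟩ := h.bdd
  have key : ∀ (k m s : ℕ) (x : H), M < m + 2 * k → m₀ ≤ m → s ≤ m → x ∈ G (-m) →
      Q ((L ^ s) x) := by
    intro k
    induction k with
    | zero =>
      intro m s x hk _ _ hx
      rw [hM m (by omega), Submodule.mem_bot] at hx
      rw [hx, map_zero]
      exact h0
    | succ k ih =>
      intro m s x hk hm hs hx
      obtain ⟨p, hpp, w, hw, rfl⟩ := h.decomp m hx
      rw [map_add, pow_one_apply]
      exact hadd _ _ (hp m s p hm hs hpp)
        (ih (m + 2) (s + 1) w (by omega) (by omega) (by omega) hw)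
  intro m s x hm hs hx
  exact key (M + 1) m s x (by omega) hm hs hx

lemma induct_low (h : LM G L) {Q : H → Prop} (hadd : ∀ x y, Q x → Q y → Q (x + y))
    (h0 : Q 0) (hp : ∀ m i p, i ≤ m → p ∈ Pri G L m → Q ((L ^ i) p)) (m s : ℕ) (x : H)
    (hs : s ≤ m) (hx : x ∈ G (-m)) : Q ((L ^ s) x) :=
  h.induct_from 0 hadd h0 (fun m i p _ => hp m i p) m s x (Nat.zero_le _) hs hx

lemma induct_hom (h : LM G L) {Q : H → Prop} (hadd : ∀ x y, Q x → Q y → Q (x + y))
    (h0 : Q 0) (hp : ∀ m i p, i ≤ m → p ∈ Pri G L m → Q ((L ^ i) p)) (j : ℤ) (x : H)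
    (hx : x ∈ G j) : Q x := by
  rcases le_total j 0 with hj | hj
  · obtain ⟨m, hm⟩ := Int.eq_ofNat_of_zero_le (show 0 ≤ -j by omega)
    have := h.induct_low hadd h0 hp m 0 x (Nat.zero_le _) (cast_mem (by omega) hx)
    simpa using this
  · obtain ⟨m, rfl⟩ := Int.eq_ofNat_of_zero_le hj
    obtain ⟨y, hy, rfl⟩ := h.surj m x hx
    exact h.induct_low hadd h0 hp m m y le_rfl hy

lemma induct (h : LM G L) {Q : H → Prop} (hadd : ∀ x y, Q x → Q y → Q (x + y))
    (h0 : Q 0) (hp : ∀ m i p, i ≤ m → p ∈ Pri G L m → Q ((L ^ i) p)) (x : H) : Q x := by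
  have hx : x ∈ ⨆ j, G j := by
    rw [h.internal.submodule_iSup_eq_top]; exact Submodule.mem_top
  exact Submodule.iSup_induction G (motive := Q) hx (fun j y hy => h.induct_hom hadd h0 hp j y hy)
    h0 hadd

/-- Gluing of operators on the graded pieces. -/
lemma glue (h : LM G L) (T : ℤ → Module.End F H) :
    ∃ S : Module.End F H, ∀ j x, x ∈ G j → S x = T j x := by
  classical
  let e := LinearEquiv.ofBijective (DirectSum.coeLinearMap G) h.internal
  refine ⟨(DirectSum.toModule F ℤ H (fun j => (T j) ∘ₗ (G j).subtype)) ∘ₗ e.symm.toLinearMap,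
    fun j x hx => ?_⟩
  have h1 : e.symm x = DirectSum.lof F ℤ (fun j => G j) j ⟨x, hx⟩ := by
    rw [LinearEquiv.symm_apply_eq]
    show x = DirectSum.coeLinearMap G _
    rw [DirectSum.coeLinearMap_lof]
  rw [LinearMap.comp_apply]
  show (DirectSum.toModule F ℤ H (fun j => (T j) ∘ₗ (G j).subtype)) (e.symm x) = _
  rw [h1, DirectSum.toModule_lof]
  rfl

/-- The inverse of `L ^ m` as an operator. -/
lemma exists_inv (h : LM G L) (m : ℕ) :
    ∃ J : Module.End F H, ∀ x, x ∈ G (-m) → J ((L ^ m) x) = x := by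
  classical
  let f : G (-m) →ₗ[F] G m := (L ^ m).restrict (p := G (-m)) (q := G m)
    (fun x hx => cast_mem (by ring) (h.pow_deg m hx))
  have hf : Function.Bijective f := by
    constructor
    · rw [← LinearMap.ker_eq_bot, LinearMap.ker_eq_bot']
      rintro ⟨x, hx⟩ h0
      have h1 : (L ^ m) x = 0 := congrArg Subtype.val h0
      exact Subtype.ext (h.inj m x hx h1)
    · rintro ⟨y, hy⟩
      obtain ⟨x, hx, hxy⟩ := h.surj m y hy
      exact ⟨⟨x, hx⟩, Subtype.ext hxy⟩
  let e := LinearEquiv.ofBijective f hf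
  let g : G (m : ℤ) →ₗ[F] H := (G (-m)).subtype ∘ₗ e.symm.toLinearMap
  obtain ⟨g', hg'⟩ := LinearMap.exists_extend g
  refine ⟨g', fun x hx => ?_⟩
  have h2 : (L ^ m) x ∈ G (m : ℤ) := cast_mem (by ring) (h.pow_deg m hx)
  have h3 : g' ((L ^ m) x) = g ⟨(L ^ m) x, h2⟩ := by
    rw [← hg']; rfl
  have h4 : e.symm ⟨(L ^ m) x, h2⟩ = ⟨x, hx⟩ := by
    rw [LinearEquiv.symm_apply_eq]
    rfl
  rw [h3]
  show ((e.symm ⟨(L ^ m) x, h2⟩ : G (-m)) : H) = x
  rw [h4]

/-- Operators with prescribed values on the elements `L ^ i p`, `p` primitive. -/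
theorem exists_op (h : LM G L) (T : ℕ → ℕ → Module.End F H) :
    ∃ S : Module.End F H, ∀ m i p, i ≤ m → p ∈ Pri G L m → S ((L ^ i) p) = T m i p := by
  classical
  obtain ⟨M, hM⟩ := h.bdd
  choose J hJ using fun m => h.exists_inv m
  let E : ℕ → Module.End F H := fun m => (J (m + 2)) * (L ^ (m + 1))
  let R : ℕ → ℕ → ℕ → Module.End F H := fun k => Nat.rec (motive := fun _ => ℕ → ℕ → Module.End F H)
    (fun _ _ => 0) (fun _ R' m s => T m s * (1 - L * E m) + R' (m + 2) (s + 1) * E m) k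
  have hE0 : ∀ m p, p ∈ Pri G L m → E m p = 0 := by
    intro m p hp
    show J (m + 2) ((L ^ (m + 1)) p) = 0
    rw [hp.2, map_zero]
  have hE1 : ∀ m i p, p ∈ Pri G L (m + 2 * (i + 1)) → E m ((L ^ (i + 1)) p) = (L ^ i) p := by
    intro m i p hp
    show J (m + 2) ((L ^ (m + 1)) ((L ^ (i + 1)) p)) = _
    rw [pow_comm_apply, show m + 1 + (i + 1) = m + 2 + i by ring, ← pow_comm_apply]
    apply hJ
    exact cast_mem (by push_cast; ring) (h.pow_deg i hp.1)
  have hR : ∀ (i k m s : ℕ) (p : H), i < k → p ∈ Pri G L (m + 2 * i) →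
      R k m s ((L ^ i) p) = T (m + 2 * i) (s + i) p := by
    intro i
    induction i with
    | zero =>
      intro k m s p hk hp
      obtain ⟨k, rfl⟩ := Nat.exists_eq_succ_of_ne_zero (by omega : k ≠ 0)
      have e0 := hE0 m p hp
      show (T m s * (1 - L * E m) + R k (m + 2) (s + 1) * E m) p = _
      rw [LinearMap.add_apply, Module.End.mul_apply, Module.End.mul_apply, LinearMap.sub_apply,
        Module.End.mul_apply, e0, map_zero, map_zero, sub_zero, add_zero]
      rfl
    | succ i ih =>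
      intro k m s p hk hp
      obtain ⟨k, rfl⟩ := Nat.exists_eq_succ_of_ne_zero (by omega : k ≠ 0)
      have e0 := hE1 m i p hp
      show (T m s * (1 - L * E m) + R k (m + 2) (s + 1) * E m) ((L ^ (i + 1)) p) = _
      rw [LinearMap.add_apply, Module.End.mul_apply, Module.End.mul_apply, LinearMap.sub_apply,
        Module.End.mul_apply, e0, one_pow_apply, Module.End.one_apply, sub_self, map_zero, zero_add,
        ih k (m + 2) (s + 1) p (by omega)
          (by rwa [show m + 2 + 2 * i = m + 2 * (i + 1) by ring])]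
      rw [show m + 2 + 2 * i = m + 2 * (i + 1) by ring, show s + 1 + i = s + (i + 1) by ring]
  let T' : ℤ → Module.End F H := fun j =>
    if j ≤ 0 then R (M + 1) (-j).toNat 0 else R (M + 1) j.toNat j.toNat * J j.toNat
  obtain ⟨S, hS⟩ := h.glue T'
  refine ⟨S, fun m i p hi hp => ?_⟩
  by_cases hmM : M < m
  · have h0 : p = 0 := by
      have h1 := (mem_Pri.1 hp).1
      rw [hM m hmM] at h1
      exact (Submodule.mem_bot F).1 h1
    rw [h0, map_zero, map_zero, map_zero]
  · have hdeg : (L ^ i) p ∈ G (-m + 2 * i) := h.pow_deg i hp.1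
    rw [hS _ _ hdeg]
    by_cases h2 : 2 * i ≤ m
    · have e1 : (-(m : ℤ) + 2 * i) ≤ 0 := by omega
      have e2 : (-(-(m : ℤ) + 2 * i)).toNat = m - 2 * i := by omega
      show (if (-(m : ℤ) + 2 * i) ≤ 0 then _ else _ : Module.End F H) _ = _
      rw [if_pos e1, e2, hR i (M + 1) (m - 2 * i) 0 p (by omega)
        (by rwa [show m - 2 * i + 2 * i = m by omega])]
      rw [show m - 2 * i + 2 * i = m by omega, zero_add]
    · have e1 : ¬ (-(m : ℤ) + 2 * i) ≤ 0 := by omega
      have e2 : (-(m : ℤ) + 2 * i).toNat = 2 * i - m := by omega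
      show (if (-(m : ℤ) + 2 * i) ≤ 0 then _ else _ : Module.End F H) _ = _
      rw [if_neg e1, e2, Module.End.mul_apply]
      have e3 : (L ^ i) p = (L ^ (2 * i - m)) ((L ^ (m - i)) p) := by
        rw [pow_comm_apply, show 2 * i - m + (m - i) = i by omega]
      have e4 : (L ^ (m - i)) p ∈ G (-((2 * i - m : ℕ) : ℤ)) :=
        cast_mem (by omega) (h.pow_deg (m - i) hp.1)
      rw [e3, hJ _ _ e4, hR (m - i) (M + 1) (2 * i - m) (2 * i - m) p (by omega)
        (by rwa [show 2 * i - m + 2 * (m - i) = m by omega])]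
      rw [show 2 * i - m + 2 * (m - i) = m by omega, show 2 * i - m + (m - i) = i by omega]

end LM

end Pool.Agent.V5helper87.WM
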