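import Pool.Agent.V5helper87.WM.Main

/-!
# Special fibres which lift to characteristic zero

The coefficient field is the field of complex numbers, that is, we choose an isomorphism of an
algebraic closure of `ℚ_ℓ` with `ℂ`.
-/

set_option autoImplicit false

namespace Pool.Agent.V5helper87.WM

open Module ComplexConjugate Pool.Agent.Y143

universe v

/-- `H = ⨁ gr k`, with the Poincare pairing `B` and the Lefschetz operator `L`, is the cohomology with
coefficients in `ℂ` of a smooth projective complex variety of dimension `d`: `σ` is the complex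
conjugation (with respect to the cohomology with real coefficients), and `C` is the Weil operator of
the Hodge structure, which is the multiplication by `i ^ (p - q)` on `H^(p, q)`. The last axiom is
given by the Hodge-Riemann bilinear relations: `(-1) ^ (k (k - 1) / 2) B (C x, L ^ s σ x)` is
positive for every primitive class `x ≠ 0` of degree `k = d - s`. -/
structure IsHodge {H : Type v} [AddCommGroup H] [Module ℂ H] (gr : ℤ → Submodule ℂ H) (d : ℤ)
    (B : H →ₗ[ℂ] H →ₗ[ℂ] ℂ) (L : Module.End ℂ H) (σ : H →ₛₗ[starRingEnd ℂ] H)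
    (C : Module.End ℂ H) : Prop where
  conj_gr : ∀ k x, x ∈ gr k → σ x ∈ gr k
  conj_conj : ∀ x, σ (σ x) = x
  weil_gr : ∀ k x, x ∈ gr k → C x ∈ gr k
  weil_sq : ∀ (k : ℤ) x, x ∈ gr k → C (C x) = ((-1 : ℂ) ^ k) • x
  weil_conj : ∀ x, C (σ x) = σ (C x)
  pair_conj : ∀ x y, ev B (σ x) (σ y) = conj (ev B x y)
  pair_weil : ∀ x y, ev B (C x) (C y) = ev B x y
  lef_conj : ∀ x, σ (L x) = L (σ x)
  lef_weil : ∀ x, C (L x) = L (C x)
  riemann : ∀ (k s : ℕ) (x : H), (k : ℤ) + s = d → x ∈ gr k → pw L (s + 1) x = 0 → x ≠ 0 →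
    ∃ r : ℝ, 0 < r ∧ (-1 : ℂ) ^ (k * (k - 1) / 2) * ev B (C x) (pw L s (σ x)) = r

/-- The special fibre `Y`, with its ample class, lifts to characteristic zero: there is a (reduced,
strict) normal crossing variety over a field of characteristic zero, projective, with smooth strata,
which specializes to `Y` (no logarithmic structure is lifted). So the cohomology of `Y^(a+1)`, for all
`a`, is the cohomology of a smooth projective complex variety, and the restriction maps are morphisms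
of real Hodge structures. -/
structure CharZeroLift {Γ : Type} {n q : ℕ} (X : SpecialFibre.{0, v} ℂ Γ n q) where
  conjOp : ∀ a, X.H a →ₛₗ[starRingEnd ℂ] X.H a
  weilOp : ∀ a, Module.End ℂ (X.H a)
  hodge : ∀ a : ℕ, IsHodge (X.gr a) ((n : ℤ) - a) (X.pair a) (X.lef a) (conjOp a) (weilOp a)
  res_conj : ∀ a x, conjOp (a + 1) (X.res a x) = X.res a (conjOp a x)
  res_weil : ∀ a x, weilOp (a + 1) (X.res a x) = X.res a (weilOp a x)

variable {Γ : Type} {n q : ℕ}

/-- The sign `(-1) ^ (k (k + 1) / 2)`. -/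
def eps (k : ℤ) : ℂ := if k % 4 = 0 ∨ k % 4 = 3 then 1 else -1

lemma eps_add_two (k : ℤ) : eps (k + 2) = -eps k := by
  unfold eps
  by_cases h : k % 4 = 0 ∨ k % 4 = 3
  · rw [if_pos h, if_neg (by omega)]
  · rw [if_neg h, if_pos (by omega), neg_neg]

lemma conj_eps (k : ℤ) : conj (eps k) = eps k := by
  unfold eps
  split_ifs <;> simp

lemma eps_nat (k : ℕ) : eps k = (-1) ^ k * (-1) ^ (k * (k - 1) / 2) := by
  have key : ∀ m : ℕ, ∀ r, r < 4 → eps ((4 * m + r : ℕ) : ℤ) =
      (-1) ^ (4 * m + r) * (-1) ^ ((4 * m + r) * (4 * m + r - 1) / 2) := by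
    intro m r hr
    have h1 : ((-1 : ℂ) ^ (4 * m + r)) = (-1) ^ r := by
      rw [pow_add, pow_mul]; norm_num
    unfold eps
    interval_cases r
    · rw [if_pos (by omega), h1]
      rcases Nat.eq_zero_or_pos m with rfl | hm
      · simp
      · obtain ⟨m, rfl⟩ : ∃ k, m = k + 1 := ⟨m - 1, by omega⟩
        have h2 : (4 * (m + 1) + 0) * (4 * (m + 1) + 0 - 1) / 2 = 2 * ((m + 1) * (4 * m + 3)) := by
          rw [show 4 * (m + 1) + 0 - 1 = 4 * m + 3 by omega,
            show (4 * (m + 1) + 0) * (4 * m + 3) = 2 * (2 * ((m + 1) * (4 * m + 3))) by ring]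
          exact Nat.mul_div_cancel_left _ (by norm_num)
        rw [h2, pow_mul]; norm_num
    · rw [if_neg (by omega), h1]
      have h2 : (4 * m + 1) * (4 * m + 1 - 1) / 2 = 2 * ((4 * m + 1) * m) := by
        rw [show 4 * m + 1 - 1 = 4 * m by omega,
          show (4 * m + 1) * (4 * m) = 2 * (2 * ((4 * m + 1) * m)) by ring]
        exact Nat.mul_div_cancel_left _ (by norm_num)
      rw [h2, pow_mul]; norm_num
    · rw [if_neg (by omega), h1]
      have h2 : (4 * m + 2) * (4 * m + 2 - 1) / 2 = 2 * (4 * m * m + 3 * m) + 1 := by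
        rw [show 4 * m + 2 - 1 = 4 * m + 1 by omega,
          show (4 * m + 2) * (4 * m + 1) = 2 * (2 * (4 * m * m + 3 * m) + 1) by ring]
        exact Nat.mul_div_cancel_left _ (by norm_num)
      rw [h2, pow_add, pow_mul]; norm_num
    · rw [if_pos (by omega), h1]
      have h2 : (4 * m + 3) * (4 * m + 3 - 1) / 2 = 2 * (4 * m * m + 5 * m + 1) + 1 := by
        rw [show 4 * m + 3 - 1 = 4 * m + 2 by omega,
          show (4 * m + 3) * (4 * m + 2) = 2 * (2 * (4 * m * m + 5 * m + 1) + 1) by ring]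
        exact Nat.mul_div_cancel_left _ (by norm_num)
      rw [h2, pow_add, pow_mul]; norm_num
  have := key (k / 4) (k % 4) (Nat.mod_lt _ (by norm_num))
  rwa [Nat.div_add_mod] at this

/-- The cohomology of the strata is a Lefschetz module. -/
lemma isLM (X : SpecialFibre.{0, v} ℂ Γ n q) (a : ℕ) : LM (cg X a) (X.lef a) where
  internal := by
    have h := X.isInternal a
    rw [DirectSum.isInternal_submodule_iff_iSupIndep_and_iSup_eq_top] at h ⊢
    obtain ⟨h1, h2⟩ := h
    refine ⟨?_, ?_⟩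
    · exact h1.comp (f := fun j : ℤ => (n : ℤ) - a + j) (fun i j hij => by simpa using hij)
    · rw [← h2]
      exact (Equiv.addLeft ((n : ℤ) - a)).iSup_comp (g := fun k => X.gr a k)
  bdd := ⟨n, fun m hm => X.gr_eq_bot a _ (by left; omega)⟩
  deg j x hx := by
    have := X.lef_gr a _ _ hx
    exact (cg_iff (by ring)).2 this
  inj m x hx h := X.lef_inj a m x ((cg_iff (by ring)).1 hx) h
  surj m y hy := by
    obtain ⟨x, hx, h⟩ := X.lef_surj a m y ((cg_iff (by ring)).1 hy)
    exact ⟨x, (cg_iff (by ring)).2 hx, h⟩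

namespace CharZeroLift

variable {X : SpecialFibre.{0, v} ℂ Γ n q} (Z : CharZeroLift X)

lemma exists_sign (X : SpecialFibre.{0, v} ℂ Γ n q) (a : ℕ) :
    ∃ E : Module.End ℂ (X.H a), ∀ k x, x ∈ X.gr a k → E x = eps k • x := by
  obtain ⟨E, hE⟩ := (isLM X a).glue (fun j => eps ((n : ℤ) - a + j) • 1)
  refine ⟨E, fun k x hx => ?_⟩
  have h1 := hE (k - (n - a)) x ((cg_iff (by ring)).2 hx)
  rw [h1, LinearMap.smul_apply, Module.End.one_apply]
  congr 2
  ring

/-- The sign operator. -/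
noncomputable def sign (X : SpecialFibre.{0, v} ℂ Γ n q) (a : ℕ) : Module.End ℂ (X.H a) :=
  (exists_sign X a).choose

lemma sign_apply (a : ℕ) (k : ℤ) (x : X.H a) (hx : x ∈ X.gr a k) : sign X a x = eps k • x :=
  (exists_sign X a).choose_spec k x hx

/-- The conjugate linear operator given by the Hodge structure. -/
noncomputable def c (a : ℕ) : X.H a →ₛₗ[starRingEnd ℂ] X.H a :=
  ((sign X a) ∘ₗ (Z.weilOp a)).comp (Z.conjOp a)

lemma c_apply (a : ℕ) (k : ℤ) (x : X.H a) (hx : x ∈ X.gr a k) :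
    Z.c a x = eps k • Z.weilOp a (Z.conjOp a x) :=
  sign_apply a k _ ((Z.hodge a).weil_gr k _ ((Z.hodge a).conj_gr k x hx))

lemma c_gr (a : ℕ) (k : ℤ) (x : X.H a) (hx : x ∈ X.gr a k) : Z.c a x ∈ X.gr a k := by
  rw [Z.c_apply a k x hx]
  exact Submodule.smul_mem _ _ ((Z.hodge a).weil_gr k _ ((Z.hodge a).conj_gr k x hx))

lemma gys_conj (a : ℕ) (x : X.H (a + 1)) :
    Z.conjOp a (X.gys a x) = X.gys a (Z.conjOp (a + 1) x) := by
  rw [← sub_eq_zero]
  apply X.pair_nondeg'
  intro y
  have h1 : X.pair a y (Z.conjOp a (X.gys a x)) =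
      conj (X.pair a (Z.conjOp a y) (X.gys a x)) := by
    have := (Z.hodge a).pair_conj (Z.conjOp a y) (X.gys a x)
    rw [(Z.hodge a).conj_conj] at this
    exact this
  have h2 : X.pair (a + 1) (X.res a y) (Z.conjOp (a + 1) x) =
      conj (X.pair (a + 1) (Z.conjOp (a + 1) (X.res a y)) x) := by
    have := (Z.hodge (a + 1)).pair_conj (Z.conjOp (a + 1) (X.res a y)) x
    rw [(Z.hodge (a + 1)).conj_conj] at this
    exact this
  rw [map_sub, h1, ← X.pair_res, ← X.pair_res, h2, Z.res_conj, sub_self]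

lemma gys_weil (a : ℕ) (x : X.H (a + 1)) :
    Z.weilOp a (X.gys a x) = X.gys a (Z.weilOp (a + 1) x) := by
  rw [← sub_eq_zero]
  apply X.pair_nondeg'
  intro y
  refine X.gr_induction (P := fun y => X.pair a y
    (Z.weilOp a (X.gys a x) - X.gys a (Z.weilOp (a + 1) x)) = 0) (by simp)
    (fun y z hy hz => by rw [map_add, LinearMap.add_apply, hy, hz, add_zero]) (fun k y hy => ?_) y
  have hs : ((-1 : ℂ) ^ k) * ((-1 : ℂ) ^ k) = 1 := by
    rw [← mul_zpow]; norm_num
  have e1 : y = ((-1 : ℂ) ^ k) • Z.weilOp a (Z.weilOp a y) := by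
    rw [(Z.hodge a).weil_sq k y hy, smul_smul, hs, one_smul]
  have h1 : X.pair a y (Z.weilOp a (X.gys a x)) =
      ((-1 : ℂ) ^ k) * X.pair a (Z.weilOp a y) (X.gys a x) := by
    have := (Z.hodge a).pair_weil (Z.weilOp a y) (X.gys a x)
    conv_lhs => rw [e1]
    rw [map_smul, LinearMap.smul_apply, smul_eq_mul]
    congr 1
  have e2 : X.res a y = ((-1 : ℂ) ^ k) • Z.weilOp (a + 1) (Z.weilOp (a + 1) (X.res a y)) := by
    rw [(Z.hodge (a + 1)).weil_sq k _ (X.res_gr a k y hy), smul_smul, hs, one_smul]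
  have h2 : X.pair (a + 1) (X.res a y) (Z.weilOp (a + 1) x) =
      ((-1 : ℂ) ^ k) * X.pair (a + 1) (Z.weilOp (a + 1) (X.res a y)) x := by
    have := (Z.hodge (a + 1)).pair_weil (Z.weilOp (a + 1) (X.res a y)) x
    conv_lhs => rw [e2]
    rw [map_smul, LinearMap.smul_apply, smul_eq_mul]
    congr 1
  rw [map_sub, h1, ← X.pair_res, ← X.pair_res, h2, Z.res_weil, sub_self]

lemma riemann' (a m : ℕ) (x : X.H a) (hx : x ∈ Pri (cg X a) (X.lef a) m) (hx0 : x ≠ 0) :
    ∃ r : ℝ, 0 < r ∧ X.pair a x ((X.lef a ^ m) (Z.c a x)) = r := by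
  have h1 : x ∈ X.gr a ((n : ℤ) - a + -m) := hx.1
  rcases lt_or_ge ((n : ℤ) - a + -m) 0 with hneg | hpos
  · rw [X.gr_eq_bot a _ (Or.inl hneg)] at h1
    exact absurd ((Submodule.mem_bot ℂ).1 h1) hx0
  obtain ⟨k, hk⟩ := Int.eq_ofNat_of_zero_le hpos
  rw [hk] at h1
  have h2 : x ∈ X.gr a (k : ℤ) := h1
  obtain ⟨r, hr, hr'⟩ := (Z.hodge a).riemann k m x (by omega) h2 hx.2 hx0
  refine ⟨r, hr, ?_⟩
  have hL : ∀ (s : ℕ) (y : X.H a), Z.weilOp a ((X.lef a ^ s) y) = (X.lef a ^ s) (Z.weilOp a y) := by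
    intro s
    induction s with
    | zero => intro y; rfl
    | succ s ih => intro y; rw [← pow_one_apply, ih, (Z.hodge a).lef_weil, pow_one_apply]
  have hs : ((-1 : ℂ) ^ k) * ((-1 : ℂ) ^ k) = 1 := by
    rw [← mul_pow]; norm_num
  have e1 : x = ((-1 : ℂ) ^ k) • Z.weilOp a (Z.weilOp a x) := by
    have := (Z.hodge a).weil_sq k x h2
    rw [zpow_natCast] at this
    rw [this, smul_smul, hs, one_smul]
  have e2 : ∀ w, X.pair a x (Z.weilOp a w) = ((-1 : ℂ) ^ k) * X.pair a (Z.weilOp a x) w := by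
    intro w
    have := (Z.hodge a).pair_weil (Z.weilOp a x) w
    conv_lhs => rw [e1]
    rw [map_smul, LinearMap.smul_apply, smul_eq_mul]
    congr 1
  rw [Z.c_apply a k x h2, map_smul, map_smul, smul_eq_mul, ← hL, e2, eps_nat]
  have e3 : ((-1 : ℂ) ^ k * (-1) ^ (k * (k - 1) / 2)) *
      ((-1 : ℂ) ^ k * X.pair a (Z.weilOp a x) ((X.lef a ^ m) (Z.conjOp a x))) =
      ((-1 : ℂ) ^ k * (-1 : ℂ) ^ k) * ((-1) ^ (k * (k - 1) / 2) *
        X.pair a (Z.weilOp a x) ((X.lef a ^ m) (Z.conjOp a x))) := by ring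
  rw [e3, hs, one_mul]
  exact hr'

/-- A lift to characteristic zero gives a Hodge-Riemann structure. -/
noncomputable def toHRS : HRS X where
  c := Z.c
  plm a :=
    { toLM := isLM X a
      orth := fun i j x y hx hy hij => X.pair_gr a _ _ x y hx hy (by
        intro h
        apply hij
        omega)
      adj := X.lef_pair a
      c_deg := fun j x hx => Z.c_gr a _ x hx
      c_lef := by
        intro x
        refine X.gr_induction (P := fun x => Z.c a (X.lef a x) = -X.lef a (Z.c a x)) (by simp)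
          (fun x y hx hy => by rw [map_add, map_add, map_add, map_add, hx, hy]; abel)
          (fun k x hx => ?_) x
        rw [Z.c_apply a k x hx, Z.c_apply a (k + 2) _ (X.lef_gr a k x hx), eps_add_two,
          (Z.hodge a).lef_conj, (Z.hodge a).lef_weil, map_smul, neg_smul]
      pos := fun m x hx hx0 => Z.riemann' a m x hx hx0 }
  c_res a x := by
    refine X.gr_induction (P := fun x => Z.c (a + 1) (X.res a x) = X.res a (Z.c a x)) (by simp)
      (fun x y hx hy => by rw [map_add, map_add, map_add, map_add, hx, hy]) (fun k x hx => ?_) x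
    rw [Z.c_apply a k x hx, Z.c_apply (a + 1) k _ (X.res_gr a k x hx), Z.res_conj, Z.res_weil,
      map_smul]
  c_gys a x := by
    refine X.gr_induction (P := fun x => Z.c a (X.gys a x) = -X.gys a (Z.c (a + 1) x)) (by simp)
      (fun x y hx hy => by rw [map_add, map_add, map_add, map_add, hx, hy]; abel)
      (fun k x hx => ?_) x
    rw [Z.c_apply (a + 1) k x hx, Z.c_apply a (k + 2) _ (X.gys_gr a k x hx), eps_add_two,
      Z.gys_conj, Z.gys_weil, map_smul, neg_smul]

end CharZeroLift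

/-- mw purity for models whose special fibre lifts to characteristic zero. -/
theorem mw_of_lift (X : SemistableModel.{0, v} ℂ Γ n q) (Z : CharZeroLift X.toSpecialFibre)
    (k : ℕ) : IsMWPure q k (X.actV k X.frob) (X.N k) :=
  mw_of_hrs X Z.toHRS k

end Pool.Agent.V5helper87.WM
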