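import Pool.Agent.V5helper87.WM.Lap

/-!
# The monodromy-weight conjecture from a Hodge-Riemann structure
-/

set_option autoImplicit false

namespace Pool.Agent.V5helper87.WM

open Module ComplexConjugate Pool.Agent.Y143

universe v

variable {Γ : Type} {n q : ℕ}

namespace HRS

variable {X : SpecialFibre.{0, v} ℂ Γ n q} (Z : HRS X)

lemma split_col {r w : ℤ} {x : X.C} (hx : x ∈ X.E₁ r w) :
    ∃ h ∈ X.E₁ r w, ∃ u ∈ X.E₁ r w, Z.lapC h = 0 ∧ x = h + Z.lapC (Z.lapC u) := by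
  classical
  choose h hh u hu h0 hxe using fun a => Z.split2 a _ (x a) (hx a).1
  let h' : X.C := fun a => if InColumn r a then h a else 0
  let u' : X.C := fun a => if InColumn r a then u a else 0
  have eh : ∀ a, InColumn r a → h' a = h a := fun a hc => if_pos hc
  have eh' : ∀ a, ¬ InColumn r a → h' a = 0 := fun a hc => if_neg hc
  have eu : ∀ a, InColumn r a → u' a = u a := fun a hc => if_pos hc
  have eu' : ∀ a, ¬ InColumn r a → u' a = 0 := fun a hc => if_neg hc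
  refine ⟨h', ?_, u', ?_, ?_, ?_⟩
  · intro a
    by_cases hc : InColumn r a
    · exact ⟨by rw [eh a hc]; exact hh a, fun hn => absurd hc hn⟩
    · exact ⟨by rw [eh' a hc]; exact Submodule.zero_mem _, fun _ => eh' a hc⟩
  · intro a
    by_cases hc : InColumn r a
    · exact ⟨by rw [eu a hc]; exact hu a, fun hn => absurd hc hn⟩
    · exact ⟨by rw [eu' a hc]; exact Submodule.zero_mem _, fun _ => eu' a hc⟩
  · ext a
    rw [lapC_apply]
    by_cases hc : InColumn r a
    · rw [eh a hc]; exact h0 a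
    · rw [eh' a hc, map_zero]; rfl
  · ext a
    rw [Pi.add_apply, lapC_apply, lapC_apply]
    by_cases hc : InColumn r a
    · rw [eh a hc, eu a hc]; exact hxe a
    · rw [eh' a hc, eu' a hc, map_zero, map_zero, add_zero]; exact (hx a).2 hc

/-- The restriction and the Gysin map vanish on harmonic families. -/
lemma harm_col {r w : ℤ} {h : X.C} (hh : h ∈ X.E₁ r w) (h0 : Z.lapC h = 0) (a : ℕ) :
    X.res a (h a) = 0 ∧ Z.ts a (h a) = 0 ∧ X.gys a (h (a + 1)) = 0 ∧ Z.rs a (h (a + 1)) = 0 := by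
  have h1 := Z.harm a _ _ (hh a).1 (congrFun h0 a)
  exact ⟨h1.1, h1.2, Z.harm_gys a _ _ (hh (a + 1)).1 (congrFun h0 (a + 1)),
    Z.harm_rs a _ _ (hh (a + 1)).1 (congrFun h0 (a + 1))⟩

lemma diff_harm {r w : ℤ} {h : X.C} (hh : h ∈ X.E₁ r w) (h0 : Z.lapC h = 0) (s : ℤ) :
    X.diff s h = 0 := by
  ext a
  by_cases hc : InColumn (s + 1) a
  · rw [diff_of hc, X.gysC_apply, (Z.harm_col hh h0 a).2.2.1, add_zero]
    cases a with
    | zero => rfl
    | succ b => rw [X.resC_succ, (Z.harm_col hh h0 b).1]; rfl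
  · rw [diff_of_not hc]; rfl

/-- The Laplacian commutes with the differential. -/
lemma lap_diff {r w : ℤ} {x : X.C} (hx : x ∈ X.E₁ r w) :
    Z.lapC (X.diff r x) = X.diff r (Z.lapC x) := by
  have h1 := Z.laplace (X.diff_mem hx)
  have h2 := Z.laplace hx
  rw [X.diff_diff hx, Z.dst_zero, add_zero, add_sub_cancel_right] at h1
  have h3 := X.diff_diff (Z.dst_mem hx)
  rw [sub_add_cancel] at h3
  rw [← h1, ← h2, map_add, h3, zero_add]

/-- A harmonic coboundary vanishes. -/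
lemma harm_cobound {r w : ℤ} {h : X.C} (hh : h ∈ X.E₁ r w) (h0 : Z.lapC h = 0)
    (hb : h ∈ X.coboundaries r w) : h = 0 := by
  obtain ⟨y, hy, hyh⟩ := hb
  ext a
  by_cases hc : InColumn r a
  swap
  · exact (hh a).2 hc
  apply Z.ip_self_eq_zero a _ _ (hh a).1
  have e1 : h a = X.resC y a + X.gys a (y (a + 1)) := by
    rw [← hyh, diff_of (by rwa [sub_add_cancel]), X.gysC_apply]
  have e2 : Z.ip a (X.gys a (y (a + 1))) (h a) = 0 := by
    rw [ip_gys, (Z.harm_col hh h0 a).2.1, ip_zero_right]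
  have e3 : Z.ip a (X.resC y a) (h a) = 0 := by
    cases a with
    | zero => exact Z.ip_zero_left 0 _
    | succ b => rw [X.resC_succ, ip_res, (Z.harm_col hh h0 b).2.2.2, ip_zero_right]
  calc Z.ip a (h a) (h a) = Z.ip a (X.resC y a + X.gys a (y (a + 1))) (h a) := by rw [← e1]
    _ = 0 := by rw [ip_add_left, e2, e3, add_zero]

/-- The Hodge decomposition of a cocycle. -/
lemma split_cocycle {r w : ℤ} {x : X.C} (hx : x ∈ X.cocycles r w) :
    ∃ h ∈ X.E₁ r w, Z.lapC h = 0 ∧ ∃ z ∈ X.coboundaries r w, x = h + z := by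
  obtain ⟨h, hh, v, hv, h0, hxe⟩ := Z.split_col hx.1
  refine ⟨h, hh, h0, Z.lapC (Z.lapC v), ?_, hxe⟩
  set u := Z.lapC v with hu
  have hu' : u ∈ X.E₁ r w := Z.lapC_mem hv
  have e1 : X.diff r (Z.lapC u) = 0 := by
    have h1 : X.diff r x = 0 := hx.2
    rw [hxe, map_add, Z.diff_harm hh h0, zero_add] at h1
    exact h1
  have e2 : Z.lapC (Z.lapC (X.diff r v)) = 0 := by
    rw [Z.lap_diff hv, Z.lap_diff hu', e1]
  have e3 : X.diff r u = 0 := by
    rw [hu, ← Z.lap_diff hv]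
    ext a
    exact Z.ker_range a _ _ ((X.diff_mem hv) a).1 (congrFun e2 a)
  have e4 := Z.laplace hu'
  rw [e3, Z.dst_zero, add_zero] at e4
  exact ⟨Z.dst r u, Z.dst_mem hu', e4⟩

include Z in
/-- `N ^ i` is injective on the `E_2` term. -/
theorem nInj (i : ℤ) (hi : 1 ≤ i) (j : ℤ) : NInj X.diff X.tot i j := by
  intro x hx
  have h1 : x ∈ X.cocycles (-i) ((n : ℤ) + j - (-i)) := hx.1
  have h2 : x ∈ X.coboundaries i ((n : ℤ) + j - i) := by rw [← X.bd_eq]; exact hx.2
  rw [X.bd_eq]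
  obtain ⟨h, hh, h0, z, hz, rfl⟩ := Z.split_cocycle h1
  have hhi : h ∈ X.E₁ i ((n : ℤ) + j - i) := by
    rw [← X.E₁_neg]
    exact X.mem_E₁_cast rfl (by ring) hh
  have hzi : z ∈ X.coboundaries i ((n : ℤ) + j - i) := by
    obtain ⟨y, hy, hyz⟩ := hz
    have hy' : y ∈ X.E₁ (i + 1) ((n : ℤ) + j - i - 2) := by
      rw [← X.E₁_neg (i + 1)]
      exact X.mem_E₁_cast (by ring) (by ring) hy
    have hy2 : y ∈ X.E₁ (i - 1) ((n : ℤ) + j - i) :=
      X.mem_E₁_cast rfl (by ring) (X.E₁_incl hi hy')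
    have e : X.diff (i - 1) y = z := by rw [← X.diff_neg i]; exact hyz
    exact ⟨y, hy2, e⟩
  have h3 : h ∈ X.coboundaries i ((n : ℤ) + j - i) := by
    have := Submodule.sub_mem _ h2 hzi
    rwa [add_sub_cancel_right] at this
  rw [Z.harm_cobound hhi h0 h3, zero_add]
  exact hz

include Z in
/-- `N ^ i` is surjective on the `E_2` term. -/
theorem nSurj (i : ℤ) (j : ℤ) : NSurj X.diff X.tot i j := by
  intro x hx
  have h1 : x ∈ X.cocycles i ((n : ℤ) + j - i) := hx
  obtain ⟨h, hh, h0, z, hz, rfl⟩ := Z.split_cocycle h1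
  refine Submodule.add_mem_sup ?_ (by rw [X.bd_eq]; exact hz)
  show h ∈ X.cocycles (-i) ((n : ℤ) + j - (-i))
  refine ⟨?_, Z.diff_harm hh h0 _⟩
  have := hh
  rw [← X.E₁_neg] at this
  exact X.mem_E₁_cast rfl (by ring) this

end HRS

/-- mw purity for models with a Hodge-Riemann structure on the strata. -/
theorem mw_of_hrs (X : SemistableModel.{0, v} ℂ Γ n q) (Z : HRS X.toSpecialFibre) (k : ℕ) :
    IsMWPure q k (X.actV k X.frob) (X.N k) :=
  X.isMWPure_of k (fun a ha => Z.nInj a (by exact_mod_cast ha) _) (fun a _ => Z.nSurj a _)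

end Pool.Agent.V5helper87.WM
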