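import Pool.Agent.V5helper87.WM.Herm
import Pool.Agent.Y143.Pure

/-!
# Hodge-Riemann structures on the cohomology of the strata and adjoint operators
-/

set_option autoImplicit false

namespace Pool.Agent.V5helper87.WM

open Module ComplexConjugate Pool.Agent.Y143

universe v

variable {Γ : Type} {n q : ℕ}

/-- The grading of the cohomology of `Y^(a+1)`, centred at zero. -/
def cg (X : SpecialFibre.{0, v} ℂ Γ n q) (a : ℕ) : ℤ → Submodule ℂ (X.H a) :=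
  fun j => X.gr a ((n : ℤ) - a + j)

/-- A Hodge-Riemann structure. -/
structure HRS (X : SpecialFibre.{0, v} ℂ Γ n q) where
  c : ∀ a, X.H a →ₛₗ[starRingEnd ℂ] X.H a
  plm : ∀ a, PLM (cg X a) (X.lef a) (X.pair a) (c a)
  c_res : ∀ a x, c (a + 1) (X.res a x) = X.res a (c a x)
  c_gys : ∀ a x, c a (X.gys a x) = -X.gys a (c (a + 1) x)

lemma cg_iff {X : SpecialFibre.{0, v} ℂ Γ n q} {a : ℕ} {k j : ℤ} (h : (n : ℤ) - a + j = k)
    {x : X.H a} : x ∈ cg X a j ↔ x ∈ X.gr a k := by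
  subst h; rfl

namespace HRS

variable {X : SpecialFibre.{0, v} ℂ Γ n q} (Z : HRS X)

/-- The Weil element. -/
noncomputable def S (a : ℕ) : Module.End ℂ (X.H a) := (Z.plm a).toLM.exists_star.choose

lemma S_spec (a : ℕ) : IsStar (cg X a) (X.lef a) (Z.S a) :=
  (Z.plm a).toLM.exists_star.choose_spec

/-- The dual Lefschetz operator. -/
noncomputable def D (a : ℕ) : Module.End ℂ (X.H a) := (Z.plm a).toLM.exists_dual.choose

lemma D_spec (a : ℕ) : IsDualLef (cg X a) (X.lef a) (Z.D a) :=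
  (Z.plm a).toLM.exists_dual.choose_spec

lemma D_gr (a : ℕ) (k : ℤ) (x : X.H a) (hx : x ∈ X.gr a k) : Z.D a x ∈ X.gr a (k - 2) := by
  have h1 : x ∈ cg X a (k - (n - a)) := (cg_iff (by ring)).2 hx
  have h2 := (Z.D_spec a).deg (Z.plm a).toLM _ _ h1
  exact (cg_iff (by ring)).1 h2

lemma c_gr (a : ℕ) (k : ℤ) (x : X.H a) (hx : x ∈ X.gr a k) : Z.c a x ∈ X.gr a k := by
  have h1 : x ∈ cg X a (k - (n - a)) := (cg_iff (by ring)).2 hx
  exact (cg_iff (by ring)).1 ((Z.plm a).c_deg _ _ h1)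

/-- The inner product on the cohomology of `Y^(a+1)`. -/
noncomputable def ip (a : ℕ) (x y : X.H a) : ℂ := hf (X.pair a) (Z.S a) (Z.c a) x y

/-- The adjoint of the restriction. -/
noncomputable def rs (a : ℕ) : X.H (a + 1) →ₗ[ℂ] X.H a :=
  (Z.D a) ∘ₗ (X.gys a) - (X.gys a) ∘ₗ (Z.D (a + 1))

/-- The adjoint of the Gysin map. -/
noncomputable def ts (a : ℕ) : X.H a →ₗ[ℂ] X.H (a + 1) :=
  (X.res a) ∘ₗ (Z.D a) - (Z.D (a + 1)) ∘ₗ (X.res a)

lemma rs_apply (a : ℕ) (x : X.H (a + 1)) :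
    Z.rs a x = Z.D a (X.gys a x) - X.gys a (Z.D (a + 1) x) := rfl

lemma ts_apply (a : ℕ) (x : X.H a) :
    Z.ts a x = X.res a (Z.D a x) - Z.D (a + 1) (X.res a x) := rfl

lemma rs_gr (a : ℕ) (k : ℤ) (x : X.H (a + 1)) (hx : x ∈ X.gr (a + 1) k) :
    Z.rs a x ∈ X.gr a k := by
  rw [rs_apply]
  refine Submodule.sub_mem _ ?_ ?_
  · have := Z.D_gr a _ _ (X.gys_gr a k x hx)
    rwa [show k + 2 - 2 = k by ring] at this
  · have := X.gys_gr a _ _ (Z.D_gr (a + 1) k x hx)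
    rwa [show k - 2 + 2 = k by ring] at this

lemma ts_gr (a : ℕ) (k : ℤ) (x : X.H a) (hx : x ∈ X.gr a k) :
    Z.ts a x ∈ X.gr (a + 1) (k - 2) := by
  rw [ts_apply]
  exact Submodule.sub_mem _ (X.res_gr a _ _ (Z.D_gr a k x hx))
    (Z.D_gr (a + 1) k _ (X.res_gr a k x hx))

lemma ip_add_left (a : ℕ) (x y z : X.H a) : Z.ip a (x + y) z = Z.ip a x z + Z.ip a y z :=
  hf_add_left _ _ _ _ _ _

lemma ip_smul_left (a : ℕ) (t : ℂ) (x y : X.H a) : Z.ip a (t • x) y = t * Z.ip a x y :=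
  hf_smul_left _ _ _ _ _ _

lemma ip_zero_left (a : ℕ) (y : X.H a) : Z.ip a 0 y = 0 := hf_zero_left _ _ _ _

lemma ip_zero_right (a : ℕ) (x : X.H a) : Z.ip a x 0 = 0 := hf_zero_right _ _ _ _

lemma ip_pos (a : ℕ) (k : ℤ) (x : X.H a) (hx : x ∈ X.gr a k) :
    ∃ r : ℝ, 0 ≤ r ∧ Z.ip a x x = r ∧ (r = 0 → x = 0) :=
  (Z.plm a).hf_pos (Z.S_spec a) ((cg_iff (a := a) (j := k - (n - a)) (by ring)).2 hx)

lemma ip_self_eq_zero (a : ℕ) (k : ℤ) (x : X.H a) (hx : x ∈ X.gr a k) (h : Z.ip a x x = 0) :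
    x = 0 := by
  obtain ⟨r, -, h2, h3⟩ := Z.ip_pos a k x hx
  apply h3
  rw [h] at h2
  exact_mod_cast h2.symm

lemma ip_symm (a : ℕ) (k : ℤ) (x y : X.H a) (hx : x ∈ X.gr a k) (hy : y ∈ X.gr a k) :
    Z.ip a y x = conj (Z.ip a x y) :=
  (Z.plm a).hf_symm (Z.S_spec a) ((cg_iff (a := a) (j := k - (n - a)) (by ring)).2 hx)
    ((cg_iff (a := a) (j := k - (n - a)) (by ring)).2 hy)

lemma star_res (a : ℕ) (x : X.H a) : X.res a (Z.S a x) =
    Z.S (a + 1) (Z.D (a + 1) (X.res a x) - X.res a (Z.D a x)) := by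
  refine star_comm (Z.plm a).toLM (Z.S_spec a) (Z.D_spec a) (Z.plm (a + 1)).toLM
    (Z.S_spec (a + 1)) (Z.D_spec (a + 1)) (X.res_lef a) ?_ x
  intro j x hx
  have h1 := X.res_gr a _ _ ((cg_iff rfl).1 hx)
  exact (cg_iff (by push_cast; ring)).2 h1

lemma star_gys (a : ℕ) (x : X.H (a + 1)) : X.gys a (Z.S (a + 1) x) =
    Z.S a (Z.D a (X.gys a x) - X.gys a (Z.D (a + 1) x)) := by
  refine star_comm (Z.plm (a + 1)).toLM (Z.S_spec (a + 1)) (Z.D_spec (a + 1)) (Z.plm a).toLM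
    (Z.S_spec a) (Z.D_spec a) (X.gys_lef a) ?_ x
  intro j x hx
  have h1 := X.gys_gr a _ _ ((cg_iff rfl).1 hx)
  exact (cg_iff (by push_cast; ring)).2 h1

lemma c_D (a : ℕ) (x : X.H a) : Z.c a (Z.D a x) = -Z.D a (Z.c a x) :=
  (Z.plm a).c_dual (Z.D_spec a) x

/-- `rs` is the right adjoint of the restriction. -/
lemma ip_res (a : ℕ) (x : X.H a) (y : X.H (a + 1)) :
    Z.ip (a + 1) (X.res a x) y = Z.ip a x (Z.rs a y) := by
  unfold ip hf
  rw [X.pair_res, star_gys, rs_apply, map_sub (Z.c a), c_D, Z.c_gys, Z.c_gys, c_D, map_neg,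
    map_neg, neg_neg, neg_neg]

/-- `ts` is the right adjoint of the Gysin map. -/
lemma ip_gys (a : ℕ) (x : X.H (a + 1)) (y : X.H a) :
    Z.ip a (X.gys a x) y = Z.ip (a + 1) x (Z.ts a y) := by
  unfold ip hf
  rw [X.pair_gys, star_res, ts_apply, map_sub (Z.c (a + 1)), c_D, Z.c_res, Z.c_res, c_D, map_neg]
  congr 2
  abel

lemma ip_rs (a : ℕ) (k : ℤ) (x : X.H (a + 1)) (y : X.H a) (hx : x ∈ X.gr (a + 1) k)
    (hy : y ∈ X.gr a k) : Z.ip a (Z.rs a x) y = Z.ip (a + 1) x (X.res a y) := by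
  rw [Z.ip_symm a k y _ hy (Z.rs_gr a k x hx), ← ip_res,
    Z.ip_symm (a + 1) k (X.res a y) x (X.res_gr a k y hy) hx]

lemma ip_ts (a : ℕ) (k : ℤ) (x : X.H a) (y : X.H (a + 1)) (hx : x ∈ X.gr a k)
    (hy : y ∈ X.gr (a + 1) (k - 2)) : Z.ip (a + 1) (Z.ts a x) y = Z.ip a x (X.gys a y) := by
  have h1 : X.gys a y ∈ X.gr a k := by
    have := X.gys_gr a _ _ hy
    rwa [show k - 2 + 2 = k by ring] at this
  rw [Z.ip_symm (a + 1) (k - 2) y _ hy (Z.ts_gr a k x hx), ← ip_gys,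
    Z.ip_symm a k (X.gys a y) x h1 hx]

/-! ### The commutation relations -/

lemma res_ts (a : ℕ) (x : X.H a) : X.res (a + 1) (Z.ts a x) + Z.ts (a + 1) (X.res a x) = 0 := by
  rw [ts_apply, ts_apply, map_sub, X.res_res, X.res_res, map_zero]
  abel

lemma gys_rs (a : ℕ) (x : X.H (a + 2)) : X.gys a (Z.rs (a + 1) x) + Z.rs a (X.gys (a + 1) x) = 0 := by
  rw [rs_apply, rs_apply, map_sub, X.gys_gys, X.gys_gys, map_zero]
  abel

lemma anti (a : ℕ) (x : X.H (a + 1)) :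
    X.res a (Z.rs a x) + Z.rs (a + 1) (X.res (a + 1) x) =
      X.gys (a + 1) (Z.ts (a + 1) x) + Z.ts a (X.gys a x) := by
  rw [rs_apply, rs_apply, ts_apply, ts_apply, map_sub, map_sub]
  have h1 := X.res_gys a x
  have h2 := X.res_gys a (Z.D (a + 1) x)
  have h3 : Z.D (a + 1) (X.res a (X.gys a x)) + Z.D (a + 1) (X.gys (a + 1) (X.res (a + 1) x)) = 0 := by
    rw [← map_add, h1, map_zero]
  have h4 : X.res a (X.gys a (Z.D (a + 1) x)) = -X.gys (a + 1) (X.res (a + 1) (Z.D (a + 1) x)) :=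
    eq_neg_of_add_eq_zero_left h2
  have h5 : Z.D (a + 1) (X.gys (a + 1) (X.res (a + 1) x)) = -Z.D (a + 1) (X.res a (X.gys a x)) :=
    eq_neg_of_add_eq_zero_right h3
  rw [h4, h5]
  abel

end HRS

end Pool.Agent.V5helper87.WM
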