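import Pool.Agent.V5helper87.WM.Lef

/-!
# The dual Lefschetz operator, the Weil element and operators of weight one
-/

set_option autoImplicit false

namespace Pool.Agent.V5helper87.WM

open Module

variable {H : Type*} [AddCommGroup H] [Module ℂ H] {H' : Type*} [AddCommGroup H'] [Module ℂ H']

/-- The scalar in the definition of the Weil element. -/
noncomputable def sg (m i : ℕ) : ℂ := (-1) ^ i * ((i.factorial : ℂ) / ((m - i).factorial : ℂ))

/-- `S` is the Weil element: `S (L ^ i p) = (-1) ^ i i! / (m - i)! L ^ (m - i) p` for `p` primitive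
of degree `-m`. -/
def IsStar (G : ℤ → Submodule ℂ H) (L S : Module.End ℂ H) : Prop :=
  ∀ m i p, i ≤ m → p ∈ Pri G L m → S ((L ^ i) p) = sg m i • (L ^ (m - i)) p

/-- `Λ` is the dual Lefschetz operator: `Λ (L ^ i p) = i (m - i + 1) L ^ (i - 1) p` for `p` primitive
of degree `-m`. -/
def IsDualLef (G : ℤ → Submodule ℂ H) (L D : Module.End ℂ H) : Prop :=
  ∀ m i p, i ≤ m → p ∈ Pri G L m → D ((L ^ i) p) = ((i : ℂ) * ((m : ℂ) - i + 1)) • (L ^ (i - 1)) p

lemma LM.exists_star {G : ℤ → Submodule ℂ H} {L : Module.End ℂ H} (h : LM G L) :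
    ∃ S, IsStar G L S := by
  obtain ⟨S, hS⟩ := h.exists_op (fun m i => sg m i • L ^ (m - i))
  exact ⟨S, fun m i p hi hp => by rw [hS m i p hi hp, LinearMap.smul_apply]⟩

lemma LM.exists_dual {G : ℤ → Submodule ℂ H} {L : Module.End ℂ H} (h : LM G L) :
    ∃ D, IsDualLef G L D := by
  obtain ⟨S, hS⟩ := h.exists_op (fun m i => ((i : ℂ) * ((m : ℂ) - i + 1)) • L ^ (i - 1))
  exact ⟨S, fun m i p hi hp => by rw [hS m i p hi hp, LinearMap.smul_apply]⟩

/-- The dual Lefschetz operator has degree `-2`. -/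
lemma IsDualLef.deg {G : ℤ → Submodule ℂ H} {L D : Module.End ℂ H} (h : LM G L)
    (hD : IsDualLef G L D) (j : ℤ) (x : H) (hx : x ∈ G j) : D x ∈ G (j - 2) := by
  -- strong form for the elements `L ^ s x`
  have key : ∀ (m s : ℕ) (x : H), s ≤ m → x ∈ G (-m) → D ((L ^ s) x) ∈ G (-m + 2 * s - 2) := by
    obtain ⟨M, hM⟩ := h.bdd
    have key' : ∀ (k m s : ℕ) (x : H), M < m + 2 * k → s ≤ m → x ∈ G (-m) →
        D ((L ^ s) x) ∈ G (-m + 2 * s - 2) := by
      intro k
      induction k with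
      | zero =>
        intro m s x hk _ hx
        rw [hM m (by omega), Submodule.mem_bot] at hx
        rw [hx, map_zero, map_zero]
        exact Submodule.zero_mem _
      | succ k ih =>
        intro m s x hk hs hx
        obtain ⟨p, hpp, w, hw, rfl⟩ := h.decomp m hx
        rw [map_add, pow_one_apply, map_add]
        refine Submodule.add_mem _ ?_ ?_
        · rw [hD m s p hs hpp]
          rcases Nat.eq_zero_or_pos s with rfl | hs0
          · simp
          · refine Submodule.smul_mem _ _ (cast_mem ?_ (h.pow_deg (s - 1) hpp.1))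
            rw [Nat.cast_sub hs0]
            push_cast
            ring
        · exact cast_mem (by push_cast; ring) (ih (m + 2) (s + 1) w (by omega) (by omega) hw)
    intro m s x hs hx
    exact key' (M + 1) m s x (by omega) hs hx
  rcases le_total j 0 with hj | hj
  · obtain ⟨m, hm⟩ := Int.eq_ofNat_of_zero_le (show 0 ≤ -j by omega)
    have := key m 0 x (Nat.zero_le _) (cast_mem (by omega) hx)
    rw [pow_zero, Module.End.one_apply] at this
    exact cast_mem (by push_cast; omega) this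
  · obtain ⟨m, rfl⟩ := Int.eq_ofNat_of_zero_le hj
    obtain ⟨y, hy, rfl⟩ := h.surj m x hx
    exact cast_mem (by ring) (key m m y le_rfl hy)

lemma pow_intertwine {L : Module.End ℂ H} {L' : Module.End ℂ H'} {f : H →ₗ[ℂ] H'}
    (hf : ∀ x, f (L x) = L' (f x)) (i : ℕ) (x : H) : f ((L ^ i) x) = (L' ^ i) (f x) := by
  induction i generalizing x with
  | zero => rfl
  | succ i ih => rw [← pow_one_apply, ih, hf, pow_one_apply]

/-- The image of a primitive element under an operator of weight one. -/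
lemma prim_image {G : ℤ → Submodule ℂ H} {L : Module.End ℂ H}
    {G' : ℤ → Submodule ℂ H'} {L' : Module.End ℂ H'} (h' : LM G' L')
    {f : H →ₗ[ℂ] H'} (hf : ∀ x, f (L x) = L' (f x))
    (hdeg : ∀ j x, x ∈ G j → f x ∈ G' (j + 1)) {m : ℕ} {p : H} (hp : p ∈ Pri G L m) :
    ∃ p0 p1, f p = p0 + L' p1 ∧ p1 ∈ Pri G' L' (m + 1) ∧
      ((m = 0 ∧ p0 = 0) ∨ ∃ k, m = k + 1 ∧ p0 ∈ Pri G' L' k) := by
  have hk : (L' ^ (m + 1)) (f p) = 0 := by
    rw [← pow_intertwine hf, hp.2, map_zero]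
  rcases Nat.eq_zero_or_eq_succ_pred m with hm | hm
  · subst hm
    have h1 : f p ∈ G' ((1 : ℕ) : ℤ) := cast_mem (by simp) (hdeg _ _ hp.1)
    obtain ⟨p1, hp1, hpp⟩ := h'.surj 1 _ h1
    refine ⟨0, p1, by rw [zero_add, ← hpp, pow_one], ⟨cast_mem (by simp) hp1, ?_⟩, Or.inl ⟨rfl, rfl⟩⟩
    show (L' ^ (0 + 1 + 1)) p1 = 0
    rw [← pow_one_apply, show L' p1 = f p by rw [← hpp, pow_one]]
    exact hk
  · obtain ⟨k, rfl⟩ : ∃ k, m = k + 1 := ⟨m.pred, hm⟩
    have h1 : f p ∈ G' (-(k : ℕ)) := cast_mem (by push_cast; ring) (hdeg _ _ hp.1)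
    obtain ⟨p0, hp0, p1, hp1, hpp⟩ := h'.decomp k h1
    refine ⟨p0, p1, hpp, ⟨cast_mem (by push_cast; ring) hp1, ?_⟩, Or.inr ⟨k, rfl, hp0⟩⟩
    show (L' ^ (k + 1 + 1 + 1)) p1 = 0
    rw [← pow_one_apply]
    have h2 : L' p1 = f p - p0 := by rw [hpp]; abel
    rw [h2, map_sub, hk, h'.pri_high hp0 (by omega), sub_zero]

lemma sg_succ (m i : ℕ) (hi : i + 1 ≤ m) :
    sg m (i + 1) = -((i + 1 : ℕ) : ℂ) * sg (m - 1) i := by
  unfold sg
  rw [show m - 1 - i = m - (i + 1) by omega, Nat.factorial_succ, pow_succ]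
  push_cast
  ring

lemma sg_up (m i : ℕ) (hi : i ≤ m) : sg m i = (((m : ℂ) + 1) - i) * sg (m + 1) i := by
  unfold sg
  rw [show m + 1 - i = (m - i) + 1 by omega, Nat.factorial_succ]
  have h1 : (((m - i : ℕ) : ℂ) + 1) = (m : ℂ) + 1 - i := by
    rw [Nat.cast_sub hi]; ring
  have h2 : (((m - i : ℕ) : ℂ) + 1) ≠ 0 := by
    exact_mod_cast Nat.succ_ne_zero (m - i)
  have h3 : (((m - i).factorial : ℕ) : ℂ) ≠ 0 := by
    exact_mod_cast Nat.factorial_ne_zero (m - i)
  push_cast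
  rw [← h1]
  field_simp

/-- For an operator `f` of weight one which commutes with `L`: `f S = S [Λ, f]`. -/
theorem star_comm {G : ℤ → Submodule ℂ H} {L S D : Module.End ℂ H} (h : LM G L)
    (hS : IsStar G L S) (hD : IsDualLef G L D)
    {G' : ℤ → Submodule ℂ H'} {L' S' D' : Module.End ℂ H'} (h' : LM G' L')
    (hS' : IsStar G' L' S') (hD' : IsDualLef G' L' D')
    {f : H →ₗ[ℂ] H'} (hf : ∀ x, f (L x) = L' (f x))
    (hdeg : ∀ j x, x ∈ G j → f x ∈ G' (j + 1)) (x : H) :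
    f (S x) = S' (D' (f x) - f (D x)) := by
  refine h.induct (Q := fun x => f (S x) = S' (D' (f x) - f (D x))) ?_ ?_ ?_ x
  · intro x y hx hy
    rw [map_add, map_add, hx, hy, ← map_add, map_add f, map_add D', map_add D, map_add f]
    congr 1
    abel
  · simp
  intro m i p hi hp
  obtain ⟨p0, p1, hfp, hp1, hp0⟩ := prim_image h' hf hdeg hp
  -- the left hand side
  have eL : f (S ((L ^ i) p)) =
      sg m i • ((L' ^ (m - i)) p0 + (L' ^ (m - i + 1)) p1) := by
    rw [hS m i p hi hp, map_smul, pow_intertwine hf, hfp, map_add, pow_one_apply]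
  -- the dual Lefschetz operator on the image
  have e1 : D' (f ((L ^ i) p)) = D' ((L' ^ i) p0) + D' ((L' ^ (i + 1)) p1) := by
    rw [pow_intertwine hf, hfp, map_add, pow_one_apply, map_add]
  have e2 : D' ((L' ^ (i + 1)) p1) =
      (((i : ℂ) + 1) * ((m : ℂ) + 1 - i)) • (L' ^ i) p1 := by
    rw [hD' (m + 1) (i + 1) p1 (by omega) hp1, Nat.add_sub_cancel]
    congr 1
    push_cast
    ring
  have e3 : f (D ((L ^ i) p)) =
      ((i : ℂ) * ((m : ℂ) - i + 1)) • ((L' ^ (i - 1)) p0 + (L' ^ (i - 1 + 1)) p1) := by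
    rw [hD m i p hi hp, map_smul, pow_intertwine hf, hfp, map_add, pow_one_apply]
  have e4 : D' ((L' ^ i) p0) = ((i : ℂ) * ((m : ℂ) - i)) • (L' ^ (i - 1)) p0 := by
    rcases hp0 with ⟨_, rfl⟩ | ⟨k, hk, hp0⟩
    · simp
    · subst hk
      by_cases hik : i ≤ k
      · rw [hD' k i p0 hik hp0]
        congr 1
        push_cast
        ring
      · obtain rfl : i = k + 1 := by omega
        rw [h'.pri_high hp0 (by omega), map_zero]
        simp
  rw [eL, e1, e2, e3, e4]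
  rcases Nat.eq_zero_or_pos i with hi0 | hi0
  · subst hi0
    have z1 : (L' ^ m) p0 = 0 := by
      rcases hp0 with ⟨_, rfl⟩ | ⟨k, hk, hp0⟩
      · simp
      · exact h'.pri_high hp0 (by omega)
    have e5 := hS' (m + 1) 0 p1 (by omega) hp1
    rw [pow_zero, Module.End.one_apply] at e5
    simp only [Nat.sub_zero, Nat.cast_zero, zero_mul, zero_smul, zero_add, sub_zero, one_mul,
      pow_zero, Module.End.one_apply, map_smul, e5, z1, smul_smul]
    rw [sg_up m 0 (Nat.zero_le _)]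
    simp
  · obtain ⟨j, rfl⟩ : ∃ j, i = j + 1 := ⟨i - 1, by omega⟩
    rw [Nat.add_sub_cancel]
    have e6 : S' ((L' ^ (j + 1)) p1) = sg (m + 1) (j + 1) • (L' ^ (m + 1 - (j + 1))) p1 :=
      hS' (m + 1) (j + 1) p1 (by omega) hp1
    have e7 : S' ((L' ^ j) p0) = sg (m - 1) j • (L' ^ (m - 1 - j)) p0 := by
      rcases hp0 with ⟨_, rfl⟩ | ⟨k, hk, hp0⟩
      · simp
      · subst hk
        exact hS' k j p0 (by omega) hp0
    have e8 : ((((j + 1 : ℕ) : ℂ) * ((m : ℂ) - ((j + 1 : ℕ) : ℂ))) • (L' ^ j) p0 +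
        (((((j + 1 : ℕ) : ℂ)) + 1) * ((m : ℂ) + 1 - ((j + 1 : ℕ) : ℂ))) • (L' ^ (j + 1)) p1) -
        (((j + 1 : ℕ) : ℂ) * ((m : ℂ) - ((j + 1 : ℕ) : ℂ) + 1)) •
          ((L' ^ j) p0 + (L' ^ (j + 1)) p1) =
        (-((j + 1 : ℕ) : ℂ)) • (L' ^ j) p0 +
          ((m : ℂ) + 1 - ((j + 1 : ℕ) : ℂ)) • (L' ^ (j + 1)) p1 := by
      module
    rw [e8, map_add, map_smul, map_smul, e6, e7, smul_smul, smul_smul, smul_add,
      sg_succ m j hi, ← sg_succ m j hi, ← sg_up m (j + 1) hi,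
      show m - 1 - j = m - (j + 1) by omega, show m + 1 - (j + 1) = m - (j + 1) + 1 by omega]

end Pool.Agent.V5helper87.WM
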